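import Pool.Agent.Helper74.CopyReg.Reflect

set_option autoImplicit false

/-!
The letter level with guards.
-/

namespace Pool.Agent.Helper93.FB

open Pool.Agent.Helper84.CopyLang Relation
open Pool.Agent.Helper74.CopyReg Pool.Agent.Helper74.CopyReg.Ltr

lemma bl_guard (w : List Ltr) : bl c (c :: (w ++ [c])) = [] :: (bl c w ++ [[]]) := by
  rw [bl_cons_self, bl_append_cons, bl_nil]

lemma bl_gww (ν m : ℕ) : bl c (c :: (ww ν m ++ [c])) = [] :: [] :: wpow (XX ν m) (ν + 2) ::
    (List.replicate (ν + 1) (wpow (YY ν m) (ν + 2)) ++ [[], []]) := by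
  rw [bl_guard, bl_ww]; simp

lemma bl_gVV (ν m r r' : ℕ) : bl c (c :: (VV ν m r r' ++ [c])) = [] :: [] :: TT ν m r ::
    (List.replicate (ν + 1 + m) (TT ν m r') ++ [[], []]) := by
  rw [bl_guard, bl_VV]; simp

lemma TT_ne_nil (ν m r : ℕ) (hr : 1 ≤ r) : TT ν m r ≠ [] := by
  intro h
  have := count_TT ν m r
  rw [h] at this
  simp at this
  omega

/-- analysis at the level of the letter `c`, with guards -/
lemma level_cg {ν m r r' : ℕ} (hm : 1 ≤ m) (hr : 1 ≤ r) (hr' : 1 ≤ r')
    (h : ReflTransGen (Step (ν + 2) m) (c :: (ww ν m ++ [c])) (c :: (VV ν m r r' ++ [c]))) :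
    ∃ u e f : List Ltr, ReflTransGen (Step (ν + 2) m) (wpow (XX ν m) (ν + 2)) (e ++ u) ∧
      ReflTransGen (Step (ν + 2) m) (wpow (YY ν m) (ν + 2)) (u ++ f) ∧
      ReflTransGen (Step (ν + 2) m) (e ++ u) (TT ν m r) ∧
      ReflTransGen (Step (ν + 2) m) u (TT ν m r') := by
  have hcount : (c :: (VV ν m r r' ++ [c])).count c = (c :: (ww ν m ++ [c])).count c + m := by
    have h1 := bl_length c (c :: (VV ν m r r' ++ [c]))
    have h2 := bl_length c (c :: (ww ν m ++ [c]))
    rw [bl_gVV] at h1
    rw [bl_gww] at h2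
    simp only [List.length_cons, List.length_append, List.length_replicate, List.length_nil]
      at h1 h2
    omega
  obtain ⟨α, x, β, hx, h1, h2⟩ := oneAdd hm h hcount
  obtain ⟨s1, s2, rfl⟩ := exists_split c x (List.count_pos_iff.mp (by omega))
  have hs : c ∉ s1 ∧ c ∉ s2 := by
    rw [List.count_append, List.count_cons_self] at hx
    exact ⟨List.count_eq_zero.mp (by omega), List.count_eq_zero.mp (by omega)⟩
  obtain ⟨u, hu⟩ : ∃ u, u = s2 ++ s1 := ⟨_, rfl⟩
  have hcu : c ∉ u := by rw [hu]; simp [hs.1, hs.2]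
  have F1 := rtg_bl h1
  have F2 := rtg_bl h2
  have e1 : bl c (α ++ wpow (s1 ++ c :: s2) (ν + 2) ++ β)
      = bl c (α ++ s1) ++ List.replicate (ν + 1) u ++ bl c (s2 ++ β) := by
    rw [show ν + 2 = (ν + 1) + 1 by ring, bl_pow, ← hu, bl_free c u hcu, wpow_single]
  have e2 : bl c (α ++ wpow (s1 ++ c :: s2) (ν + 2 + m) ++ β)
      = bl c (α ++ s1) ++ List.replicate (ν + 1 + m) u ++ bl c (s2 ++ β) := by
    rw [show ν + 2 + m = (ν + 1 + m) + 1 by ring, bl_pow, ← hu, bl_free c u hcu, wpow_single]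
  rw [e1, bl_gww] at F1
  rw [e2, bl_gVV] at F2
  have hlen := F1.length_eq
  simp only [List.length_cons, List.length_append, List.length_replicate, List.length_nil] at hlen
  have lP : 1 ≤ (bl c (α ++ s1)).length := List.length_pos_iff.mpr (bl_ne_nil _ _)
  have lQ : 1 ≤ (bl c (s2 ++ β)).length := List.length_pos_iff.mpr (bl_ne_nil _ _)
  -- entries of the three lists
  have gw0 : ∀ {i : ℕ}, i < 2 → ([] :: [] :: wpow (XX ν m) (ν + 2) ::
      (List.replicate (ν + 1) (wpow (YY ν m) (ν + 2)) ++ [[], []]) : List (List Ltr))[i]?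
        = some [] := by
    intro i hi
    interval_cases i <;> rfl
  have gw2 : ([] :: [] :: wpow (XX ν m) (ν + 2) ::
      (List.replicate (ν + 1) (wpow (YY ν m) (ν + 2)) ++ [[], []]) : List (List Ltr))[2]?
        = some (wpow (XX ν m) (ν + 2)) := rfl
  have gw3 : ∀ {i : ℕ}, 3 ≤ i → i < ν + 4 → ([] :: [] :: wpow (XX ν m) (ν + 2) ::
      (List.replicate (ν + 1) (wpow (YY ν m) (ν + 2)) ++ [[], []]) : List (List Ltr))[i]?
        = some (wpow (YY ν m) (ν + 2)) := by
    intro i hi hi'
    obtain ⟨k, rfl⟩ : ∃ k, i = k + 3 := ⟨i - 3, by omega⟩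
    simp only [List.getElem?_cons_succ]
    rw [List.getElem?_append_left (by simp; omega), List.getElem?_replicate,
      if_pos (by omega)]
  have gw4 : ∀ {i : ℕ}, ν + 4 ≤ i → i < ν + 6 → ([] :: [] :: wpow (XX ν m) (ν + 2) ::
      (List.replicate (ν + 1) (wpow (YY ν m) (ν + 2)) ++ [[], []]) : List (List Ltr))[i]?
        = some [] := by
    intro i hi hi'
    obtain ⟨k, rfl⟩ : ∃ k, i = k + 3 := ⟨i - 3, by omega⟩
    simp only [List.getElem?_cons_succ]
    rw [List.getElem?_append_right (by simp; omega), List.length_replicate]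
    obtain ⟨k', hk⟩ : ∃ k', k - (ν + 1) = k' := ⟨_, rfl⟩
    rw [hk]
    have : k' < 2 := by omega
    interval_cases k' <;> rfl
  have gV2 : ([] :: [] :: TT ν m r ::
      (List.replicate (ν + 1 + m) (TT ν m r') ++ [[], []]) : List (List Ltr))[2]?
        = some (TT ν m r) := rfl
  have gV3 : ∀ {i : ℕ}, 3 ≤ i → i < ν + 4 + m → ([] :: [] :: TT ν m r ::
      (List.replicate (ν + 1 + m) (TT ν m r') ++ [[], []]) : List (List Ltr))[i]?
        = some (TT ν m r') := by
    intro i hi hi'
    obtain ⟨k, rfl⟩ : ∃ k, i = k + 3 := ⟨i - 3, by omega⟩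
    simp only [List.getElem?_cons_succ]
    rw [List.getElem?_append_left (by simp; omega), List.getElem?_replicate,
      if_pos (by omega)]
  have gm : ∀ (P Q : List (List Ltr)) (K : ℕ) {i : ℕ}, P.length ≤ i → i < P.length + K →
      (P ++ List.replicate K u ++ Q)[i]? = some u := by
    intro P Q K i hi hi'
    rw [List.append_assoc, List.getElem?_append_right hi,
      List.getElem?_append_left (by simp; omega), List.getElem?_replicate, if_pos (by omega)]
  have gl : ∀ (P Q : List (List Ltr)) (K : ℕ) {i : ℕ}, i < P.length →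
      (P ++ List.replicate K u ++ Q)[i]? = P[i]? := by
    intro P Q K i hi
    rw [List.append_assoc, List.getElem?_append_left hi]
  have gr : ∀ (P Q : List (List Ltr)) (K j : ℕ),
      (P ++ List.replicate K u ++ Q)[P.length + K + j]? = Q[j]? := by
    intro P Q K j
    rw [List.getElem?_append_right (by simp)]
    congr 1
    simp
  -- the last piece of the left part, the first piece of the right part
  obtain ⟨P0, a0, hPa, hPs⟩ := bl_decomp c α
  have hP : bl c (α ++ s1) = P0 ++ [a0 ++ s1] := by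
    have := hPs s1 s1 [] (bl_free c s1 hs.1)
    simpa using this
  obtain ⟨b0, Q0, hQ⟩ : ∃ b0 Q0, bl c (s2 ++ β) = (s2 ++ b0) :: Q0 := by
    obtain ⟨A0, x0, h3, h4⟩ := bl_decomp c s2
    rw [bl_free c s2 hs.2] at h3
    have hA : A0 = [] := by
      have := congrArg List.length h3
      simp at this
      exact this
    subst hA
    have hx0 : x0 = s2 := by simpa using h3.symm
    rcases h5 : bl c β with _ | ⟨b0, B0⟩
    · exact absurd h5 (bl_ne_nil c β)
    · have h6 := h4 β b0 B0 h5
      exact ⟨b0, B0, by rw [h6, hx0]; rfl⟩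
  have hPl : (bl c (α ++ s1)).length = P0.length + 1 := by rw [hP]; simp
  have hQl : (bl c (s2 ++ β)).length = Q0.length + 1 := by rw [hQ]; simp
  rcases Nat.lt_or_ge (bl c (α ++ s1)).length 2 with hP2 | hP2
  · -- one block on the left: `u` is empty
    exfalso
    have g0 : ReflTransGen (Step (ν + 2) m) [] u :=
      forall₂_get F1 (i := 1) (gw0 (by omega)) (gm _ _ _ (by omega) (by omega))
    have hu0 := rtg_from_nil (by omega) g0
    have g1 : ReflTransGen (Step (ν + 2) m) u (TT ν m r) :=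
      forall₂_get F2 (i := 2) (gm _ _ _ (by omega) (by omega)) gV2
    rw [hu0] at g1
    exact TT_ne_nil ν m r hr (rtg_from_nil (by omega) g1)
  rcases Nat.lt_or_ge 3 (bl c (α ++ s1)).length with hP4 | hP4
  · -- at least four blocks on the left: `u` is empty
    exfalso
    have g0 : ReflTransGen (Step (ν + 2) m) [] u :=
      forall₂_get F1 (i := ν + 4) (gw4 (by omega) (by omega)) (gm _ _ _ (by omega) (by omega))
    have hu0 := rtg_from_nil (by omega) g0
    have g1 : ReflTransGen (Step (ν + 2) m) u (TT ν m r') :=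
      forall₂_get F2 (i := ν + 3 + m) (gm _ _ _ (by omega) (by omega))
        (gV3 (by omega) (by omega))
    rw [hu0] at g1
    exact TT_ne_nil ν m r' hr' (rtg_from_nil (by omega) g1)
  rcases Nat.lt_or_ge (bl c (α ++ s1)).length 3 with hP3 | hP3
  · -- two blocks on the left
    have hP1 : (bl c (α ++ s1)).length = 2 := by omega
    have g0 : ReflTransGen (Step (ν + 2) m) [] (a0 ++ s1) := by
      refine forall₂_get F1 (i := 1) (gw0 (by omega)) ?_
      rw [gl _ _ _ (by omega), hP, List.getElem?_append_right (by omega)]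
      simp [show 1 - P0.length = 0 by omega]
    have hp0 := rtg_from_nil (by omega) g0
    have hs1 : s1 = [] := (List.append_eq_nil_iff.mp hp0).2
    have hu2 : u = s2 := by rw [hu, hs1]; simp
    refine ⟨u, [], b0, ?_, ?_, ?_, ?_⟩
    · exact forall₂_get F1 (i := 2) gw2 (gm _ _ _ (by omega) (by omega))
    · refine forall₂_get F1 (i := ν + 3) (gw3 (by omega) (by omega)) ?_
      have := gr (bl c (α ++ s1)) (bl c (s2 ++ β)) (ν + 1) 0
      rw [hP1, show 2 + (ν + 1) + 0 = ν + 3 by ring] at this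
      rw [this, hQ, hu2]; rfl
    · exact forall₂_get F2 (i := 2) (gm _ _ _ (by omega) (by omega)) gV2
    · exact forall₂_get F2 (i := 3) (gm _ _ _ (by omega) (by omega)) (gV3 (by omega) (by omega))
  · -- three blocks on the left
    have hP1 : (bl c (α ++ s1)).length = 3 := by omega
    have g0 : ReflTransGen (Step (ν + 2) m) [] (s2 ++ b0) := by
      refine forall₂_get F1 (i := ν + 4) (gw4 (by omega) (by omega)) ?_
      have := gr (bl c (α ++ s1)) (bl c (s2 ++ β)) (ν + 1) 0
      rw [hP1, show 3 + (ν + 1) + 0 = ν + 4 by ring] at this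
      rw [this, hQ]; rfl
    have hq0 := rtg_from_nil (by omega) g0
    have hs2 : s2 = [] := (List.append_eq_nil_iff.mp hq0).1
    have hu2 : u = s1 := by rw [hu, hs2]; simp
    have gp : (bl c (α ++ s1))[2]? = some (a0 ++ u) := by
      rw [hP, hu2, List.getElem?_append_right (by omega)]
      simp [show 2 - P0.length = 0 by omega]
    refine ⟨u, a0, [], ?_, ?_, ?_, ?_⟩
    · refine forall₂_get F1 (i := 2) gw2 ?_
      rw [gl _ _ _ (by omega), gp]
    · rw [List.append_nil]
      exact forall₂_get F1 (i := 3) (gw3 (by omega) (by omega)) (gm _ _ _ (by omega) (by omega))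
    · refine forall₂_get F2 (i := 2) ?_ gV2
      rw [gl _ _ _ (by omega), gp]
    · exact forall₂_get F2 (i := 3) (gm _ _ _ (by omega) (by omega)) (gV3 (by omega) (by omega))

lemma not_gVV {ν m r r' : ℕ} (hm : 1 ≤ m) (hr1 : 1 ≤ r) (hr : r < r')
    (h : ReflTransGen (Step (ν + 2) m) (c :: (ww ν m ++ [c])) (c :: (VV ν m r r' ++ [c]))) :
    False := by
  obtain ⟨u, e, f, h1, h2, h3, h4⟩ := level_cg hm hr1 (by omega) h
  refine level_d hm h1 h2 h4 ?_
  have h5 := rtg_count_le d h3
  rw [count_TT, List.count_append] at h5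
  omega

/-- an empty block stays empty -/
lemma empty_block {n m : ℕ} (hn : 1 ≤ n) (hm : 1 ≤ m) {T : List Ltr} (hT : c ∉ T)
    (h : ReflTransGen (Step n m) [c, c] (c :: (T ++ [c]))) : T = [] := by
  have h1 := rtg_bl (rtg_stepF (δ := c) hm h (by
    simp [List.count_eq_zero.mpr hT]))
  rw [bl_guard, bl_free c T hT, show ([c, c] : List Ltr) = c :: ([] ++ [c]) from rfl, bl_guard,
    bl_nil] at h1
  have h2 : ReflTransGen (Step n m) [] T := forall₂_get h1 (i := 1) rfl rfl
  exact rtg_from_nil hn h2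

end Pool.Agent.Helper93.FB
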