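import Pool.Agent.Helper93.FB.Cut
import Pool.Agent.Helper93.FB.Let

set_option autoImplicit false

/-!
The coded marker, and the words with a given coded factor.
-/

namespace Pool.Agent.Helper93.FB

open Pool.Agent.Helper84.CopyLang Relation
open Pool.Agent.Helper74.CopyReg Pool.Agent.Helper74.CopyReg.Ltr

universe u

section code
variable {A : Type u} {e : Bool → A}

lemma cword_get (x : Ltr) {j : ℕ} (hj : j < 15) : (cword e x)[j]? = some (e (bit x j)) := by
  simp [cword, hj]

def chkB : Bool := (List.range 6).all fun r => (List.range 15).any fun j =>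
  decide (j + (r + 9) < 15) && ((cw c).testBit j != (cw c).testBit (j + (r + 9)))

lemma chkB_true : chkB = true := by decide +kernel

lemma unb_c (he : Function.Injective e) : Unb (cword e c) := by
  intro r h1 h2
  rw [length_cword] at h2
  have h3 := chkB_true
  simp only [chkB, List.all_eq_true, List.any_eq_true] at h3
  obtain ⟨j, _, h4⟩ := h3 (r - 9) (List.mem_range.mpr (by omega))
  rw [show r - 9 + 9 = r by omega] at h4
  simp only [Bool.and_eq_true, decide_eq_true_eq, bne_iff_ne, ne_eq] at h4
  refine ⟨j, by rw [length_cword]; exact h4.1, ?_⟩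
  rw [cword_get _ (by omega), cword_get _ (by omega)]
  intro h5
  exact h4.2 (he (Option.some.inj h5))

/-- occurrences of the marker in a coded word -/
lemma at_enc (he : Function.Injective e) {V : List Ltr} {q : ℕ} (h : At (cword e c) (enc e V) q) :
    ∃ i, q = 15 * i ∧ V[i]? = some c := by
  have hl := h.le (by simp)
  rw [length_cword, length_enc] at hl
  have hb : ∀ j, j < 15 → eps V (q + j) = bit c j := by
    intro j hj
    have h1 := h j (by simpa using hj)
    rw [getElem?_enc _ _ _ (by omega), cword_get _ hj] at h1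
    exact he (Option.some.inj h1)
  have ht : q % 15 = 0 := by
    refine marker_pos (V.getD (q / 15) a) (V.getD (q / 15 + 1) a) (by omega) ?_
    rw [← cw_mod c]
    apply Nat.eq_of_testBit_eq
    intro k
    rw [show (16 : ℕ) = 2 ^ 4 by norm_num, Nat.testBit_mod_two_pow, Nat.testBit_mod_two_pow,
      Nat.testBit_shiftRight]
    by_cases hk : k < 4
    · simp only [hk, decide_true, Bool.true_and]
      rw [eps_cat2 _ _ _ (by omega), show 15 * (q / 15) + (q % 15 + k) = q + k by omega,
        hb k (by omega)]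
      rfl
    · simp [hk]
  refine ⟨q / 15, by omega, ?_⟩
  have h2 : V.getD (q / 15) a = c := by
    apply sufDet_zero
    intro u _ hu
    rw [← hb u hu, ← eps_mul V (q / 15) u hu]
    congr 1
    omega
  rw [List.getD_eq_getElem _ _ (by omega)] at h2
  rw [List.getElem?_eq_getElem (by omega), h2]

lemma at_enc' {V : List Ltr} {i : ℕ} (h : V[i]? = some c) : At (cword e c) (enc e V) (15 * i) := by
  intro j hj
  rw [length_cword] at hj
  have hi : i < V.length := (List.getElem?_eq_some_iff.mp h).1
  rw [getElem?_enc _ _ _ (by omega), cword_get _ hj,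
    show (15 * i + j) / 15 = i by omega, show (15 * i + j) % 15 = j by omega]
  rw [List.getD_eq_getElem?_getD, h]
  rfl

lemma count_card (V : List Ltr) : ((Finset.range V.length).filter (fun i => V[i]? = some c)).card
    = V.count c := by
  induction V using List.reverseRecOn with
  | nil => rfl
  | append_singleton V x ih =>
    have e1 : (Finset.range V.length).filter (fun i => (V ++ [x])[i]? = some c)
        = (Finset.range V.length).filter (fun i => V[i]? = some c) := by
      apply Finset.filter_congr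
      intro i hi
      rw [Finset.mem_range] at hi
      rw [List.getElem?_append_left hi]
    rw [List.length_append, List.length_singleton, Finset.range_add_one, Finset.filter_insert, e1]
    have e2 : (V ++ [x])[V.length]? = some x := by simp
    rw [e2, List.count_append]
    by_cases hx : x = c
    · subst hx
      rw [if_pos rfl, Finset.card_insert_of_notMem (by simp), ih]
      simp
    · rw [if_neg (by simpa using hx), ih]
      simp [hx]

lemma occ_enc (he : Function.Injective e) (V : List Ltr) :
    occ (cword e c) (enc e V) = V.count c := by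
  classical
  rw [← count_card]
  unfold occ
  rw [← Finset.card_image_of_injective (s := (Finset.range V.length).filter
    (fun i => V[i]? = some c)) (f := fun i => 15 * i) (fun a b h => by simpa using h)]
  congr 1
  ext q
  simp only [Finset.mem_filter, Finset.mem_range, Finset.mem_image, length_enc]
  constructor
  · rintro ⟨h1, h2⟩
    obtain ⟨i, h3, h4⟩ := at_enc he h2
    exact ⟨i, ⟨by omega, h4⟩, h3.symm⟩
  · rintro ⟨i, ⟨h1, h2⟩, rfl⟩
    exact ⟨by omega, at_enc' h2⟩

/-- no short cube windows in coded words -/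
lemma no_per (he : Function.Injective e) (V : List Ltr) {p : ℕ} (hp : 1 ≤ p) (hp8 : p ≤ 8)
    (i : ℕ) : ¬ Per p (enc e V) i := by
  rintro ⟨h1, h2⟩
  rw [length_enc] at h1
  obtain ⟨κ, hκ, hS⟩ := dvd_period (V := V) (i0 := i) (S := p) (T := 3 * p) hp le_rfl (by
    intro q h3 h4
    have h5 := h2 (q - i) (by omega)
    rw [show i + (q - i) = q by omega, getElem?_enc _ _ _ (by omega),
      getElem?_enc _ _ _ (by omega)] at h5
    exact he (Option.some.inj h5))
  omega

end code

section ctx
variable {A : Type u}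

open Classical in
/-- cube windows in a context: nothing new if the middle has no windows -/
lemma cnt_ctx {p : ℕ} (hp : 3 * p ≤ 30) (pre suf Y Y' u v : List A) (hpre : pre.length = 30)
    (hsuf : suf.length = 30) (hY : Y.length ≤ Y'.length)
    (hno : ∀ i, ¬ Per p (pre ++ Y' ++ suf) i) :
    cnt p (u ++ (pre ++ Y' ++ suf) ++ v) ≤ cnt p (u ++ (pre ++ Y ++ suf) ++ v) := by
  set V := u ++ (pre ++ Y' ++ suf) ++ v with hV
  set W := u ++ (pre ++ Y ++ suf) ++ v with hW
  have lV : V.length = u.length + (60 + Y'.length) + v.length := by rw [hV]; simp; omega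
  have lW : W.length = u.length + (60 + Y.length) + v.length := by rw [hW]; simp; omega
  -- common prefix
  have hL : ∀ k, k < u.length + 30 → V[k]? = W[k]? := by
    intro k hk
    have e1 : V = (u ++ pre) ++ (Y' ++ suf ++ v) := by rw [hV]; simp
    have e2 : W = (u ++ pre) ++ (Y ++ suf ++ v) := by rw [hW]; simp
    have hk' : k < (u ++ pre).length := by simp; omega
    rw [e1, e2, List.getElem?_append_left hk', List.getElem?_append_left hk']
  -- common suffix
  have hR : ∀ k, u.length + 30 + Y'.length ≤ k → V[k]? = W[k - (Y'.length - Y.length)]? := by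
    intro k hk
    have e1 : V = (u ++ pre ++ Y') ++ (suf ++ v) := by rw [hV]; simp
    have e2 : W = (u ++ pre ++ Y) ++ (suf ++ v) := by rw [hW]; simp
    have l1 : (u ++ pre ++ Y').length = u.length + 30 + Y'.length := by simp; omega
    have l2 : (u ++ pre ++ Y).length = u.length + 30 + Y.length := by simp; omega
    have e3 : ((u ++ pre ++ Y') ++ (suf ++ v))[k]? = (suf ++ v)[k - (u ++ pre ++ Y').length]? :=
      List.getElem?_append_right (by omega)
    have e4 : ((u ++ pre ++ Y) ++ (suf ++ v))[k - (Y'.length - Y.length)]?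
        = (suf ++ v)[k - (Y'.length - Y.length) - (u ++ pre ++ Y).length]? :=
      List.getElem?_append_right (by omega)
    rw [e1, e2, e3, e4]
    congr 1
    omega
  -- middle windows do not exist
  have hM : ∀ i, Per p V i → i < u.length ∨ u.length + (60 + Y'.length) < i + 3 * p := by
    intro i hi
    by_contra hh
    push Not at hh
    apply hno (i - u.length)
    refine ⟨by simp; omega, fun j hj => ?_⟩
    have h2 := hi.2 j hj
    have l0 : (pre ++ Y' ++ suf).length = 60 + Y'.length := by simp; omega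
    have e0 : ∀ k, u.length ≤ k → k < u.length + (60 + Y'.length) →
        V[k]? = (pre ++ Y' ++ suf)[k - u.length]? := by
      intro k hk1 hk2
      rw [hV, List.append_assoc u, List.getElem?_append_right hk1,
        List.getElem?_append_left (by omega)]
    rw [e0 _ (by omega) (by omega), e0 _ (by omega) (by omega)] at h2
    rw [show i - u.length + j = i + j - u.length by omega,
      show i + j - u.length + p = i + j + p - u.length by omega]
    exact h2
  unfold cnt
  apply Finset.card_le_card_of_injOn (fun i => if i < u.length then i else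
    i - (Y'.length - Y.length))
  · intro i hi
    rw [Finset.mem_coe, Finset.mem_filter, Finset.mem_range] at hi
    obtain ⟨h1, h2⟩ := hi
    rw [Finset.mem_coe, Finset.mem_filter, Finset.mem_range]
    have h3 := h2.1
    by_cases hc : i < u.length
    · simp only [if_pos hc]
      refine ⟨by omega, by omega, fun j hj => ?_⟩
      rw [← hL _ (by omega), ← hL _ (by omega)]
      exact h2.2 j hj
    · simp only [if_neg hc]
      have h4 := (hM i h2).resolve_left hc
      refine ⟨by omega, by omega, fun j hj => ?_⟩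
      have e1 := hR (i + j) (by omega)
      have e2 := hR (i + j + p) (by omega)
      rw [show i - (Y'.length - Y.length) + j = i + j - (Y'.length - Y.length) by omega,
        show i + j - (Y'.length - Y.length) + p = i + j + p - (Y'.length - Y.length) by omega,
        ← e1, ← e2]
      exact h2.2 j hj
  · intro i hi j hj hij
    rw [Finset.mem_coe, Finset.mem_filter, Finset.mem_range] at hi hj
    have h1 := hM i hi.2
    have h2 := hM j hj.2
    simp only at hij
    split_ifs at hij <;> omega

/-! ### decompositions of the test words -/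

lemma count_c_TT (ν m r : ℕ) : (TT ν m r).count c = 0 :=
  List.count_eq_zero.mpr (c_not_mem_TT ν m r)

lemma count_c_rep (T : List Ltr) (hT : T.count c = 0) (k : ℕ) :
    (wpow (T ++ [c]) k).count c = k := by
  rw [count_wpow]
  simp [hT]

lemma gVV_left {ν m r r' : ℕ} (hm : 1 ≤ m) (hr : 1 ≤ r) (hr' : 1 ≤ r') :
    ∃ p T q : List Ltr, c :: (VV ν m r r' ++ [c]) = (c :: p) ++ c :: (T ++ c :: q) ∧
      (c :: p).count c = m ∧ T ≠ [] ∧ c ∉ T := by
  rcases Nat.lt_or_ge m 2 with h2 | h2
  · obtain rfl : m = 1 := by omega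
    refine ⟨[], TT ν 1 r, wpow (TT ν 1 r' ++ [c]) (ν + 1 + 1) ++ [c], ?_, by simp,
      TT_ne_nil _ _ _ hr, c_not_mem_TT _ _ _⟩
    unfold VV; simp
  · obtain ⟨j, rfl⟩ : ∃ j, m = j + 2 := ⟨m - 2, by omega⟩
    refine ⟨c :: (TT ν (j + 2) r ++ wpow (c :: TT ν (j + 2) r') j), TT ν (j + 2) r',
      wpow (TT ν (j + 2) r' ++ [c]) (ν + 2) ++ [c], ?_, ?_, TT_ne_nil _ _ _ hr',
      c_not_mem_TT _ _ _⟩
    · unfold VV
      have e1 : wpow (TT ν (j + 2) r' ++ [c]) (ν + 1 + (j + 2))
          = wpow (TT ν (j + 2) r' ++ [c]) j ++ ((TT ν (j + 2) r' ++ [c]) ++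
            wpow (TT ν (j + 2) r' ++ [c]) (ν + 2)) := by
        rw [show ν + 1 + (j + 2) = j + ((ν + 2) + 1) by ring, wpow_add, wpow_succ]
      have e2 : c :: wpow (TT ν (j + 2) r' ++ [c]) j = wpow (c :: TT ν (j + 2) r') j ++ [c] := by
        generalize TT ν (j + 2) r' = T
        induction j with
        | zero => rfl
        | succ j ih =>
          have : c :: wpow (T ++ [c]) (j + 1) = (c :: T) ++ (c :: wpow (T ++ [c]) j) := by
            rw [wpow_succ]; simp
          rw [this, wpow_succ (c :: T) j]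
          rw [List.append_assoc]
          congr 1
          have h3 : ∀ j, c :: wpow (T ++ [c]) j = wpow (c :: T) j ++ [c] := by
            intro j
            induction j with
            | zero => rfl
            | succ j ih =>
              have : c :: wpow (T ++ [c]) (j + 1) = (c :: T) ++ (c :: wpow (T ++ [c]) j) := by
                rw [wpow_succ]; simp
              rw [this, wpow_succ (c :: T) j, List.append_assoc, ih]
          exact h3 j
      rw [e1]
      have e3 : TT ν (j + 2) r ++ c :: (wpow (TT ν (j + 2) r' ++ [c]) j ++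
          ((TT ν (j + 2) r' ++ [c]) ++ wpow (TT ν (j + 2) r' ++ [c]) (ν + 2)))
          = TT ν (j + 2) r ++ ((c :: wpow (TT ν (j + 2) r' ++ [c]) j) ++
          ((TT ν (j + 2) r' ++ [c]) ++ wpow (TT ν (j + 2) r' ++ [c]) (ν + 2))) := by simp
      rw [e3, e2]
      simp
    · have h4 : (c :: TT ν (j + 2) r').count c = 1 := by simp [count_c_TT]
      simp only [List.count_cons_self, List.count_append, count_c_TT, count_wpow]
      omega

lemma gVV_right {ν m r r' : ℕ} (hm : 1 ≤ m) (hr' : 1 ≤ r') :
    ∃ p T q : List Ltr, c :: (VV ν m r r' ++ [c]) = p ++ c :: (T ++ c :: (q ++ [c])) ∧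
      (q ++ [c]).count c = m ∧ T ≠ [] ∧ c ∉ T := by
  obtain ⟨j, rfl⟩ : ∃ j, m = j + 1 := ⟨m - 1, by omega⟩
  refine ⟨c :: c :: (TT ν (j + 1) r ++ c :: (wpow (TT ν (j + 1) r' ++ [c]) ν ++
    TT ν (j + 1) r')), TT ν (j + 1) r', wpow (TT ν (j + 1) r' ++ [c]) j, ?_, ?_,
    TT_ne_nil _ _ _ hr', c_not_mem_TT _ _ _⟩
  · unfold VV
    have e1 : wpow (TT ν (j + 1) r' ++ [c]) (ν + 1 + (j + 1))
        = wpow (TT ν (j + 1) r' ++ [c]) ν ++ ((TT ν (j + 1) r' ++ [c]) ++
          ((TT ν (j + 1) r' ++ [c]) ++ wpow (TT ν (j + 1) r' ++ [c]) j)) := by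
      rw [show ν + 1 + (j + 1) = ν + (j + 1 + 1) by ring, wpow_add, wpow_succ _ (j + 1),
        wpow_succ _ j]
    rw [e1]
    simp
  · rw [List.count_append, count_c_rep _ (count_c_TT _ _ _)]
    simp

lemma ww_split (ν m : ℕ) : ∃ y : List Ltr, ww ν m = c :: (y ++ [c]) := by
  refine ⟨wpow (XX ν m) (ν + 2) ++ c :: (wpow (wpow (YY ν m) (ν + 2) ++ [c]) ν ++
    wpow (YY ν m) (ν + 2)), ?_⟩
  unfold ww
  rw [wpow_succ' _ ν]
  simp

lemma VV_split {ν m : ℕ} (hm : 1 ≤ m) (r r' : ℕ) : ∃ y : List Ltr, VV ν m r r' = c :: (y ++ [c]) := by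
  obtain ⟨j, rfl⟩ : ∃ j, m = j + 1 := ⟨m - 1, by omega⟩
  refine ⟨TT ν (j + 1) r ++ c :: (wpow (TT ν (j + 1) r' ++ [c]) (ν + 1 + j) ++
    TT ν (j + 1) r'), ?_⟩
  unfold VV
  rw [show ν + 1 + (j + 1) = (ν + 1 + j) + 1 by ring, wpow_succ' _ (ν + 1 + j)]
  simp

lemma VV_length (ν m i j : ℕ) (hm : 1 ≤ m) :
    (ww ν m).length ≤ (VV ν m (ν + 2 + i * m) (ν + 2 + j * m)).length := by
  have h1 := rtg_length_le (XX_TT ν m i)
  have h2 := rtg_length_le (YY_TT ν m j)
  unfold ww VV
  simp only [List.length_cons, List.length_append, length_wpow, List.length_nil] at h1 h2 ⊢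
  have h3 : (ν + 1) * ((ν + 2) * (YY ν m).length + (0 + 1)) ≤
      (ν + 1 + m) * ((TT ν m (ν + 2 + j * m)).length + (0 + 1)) :=
    Nat.mul_le_mul (by omega) (by omega)
  omega

/-- the test words with `r < r'` are not derivable, in every context -/
lemma not_ctx {e : Bool → A} (he : Function.Injective e) {ν m i j : ℕ} (hm : 1 ≤ m) (hij : i < j)
    (u v : List A)
    (h : ReflTransGen (Step (ν + 2) m) (u ++ enc e (c :: (ww ν m ++ [c])) ++ v)
      (u ++ enc e (c :: (VV ν m (ν + 2 + i * m) (ν + 2 + j * m) ++ [c])) ++ v)) : False := by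
  obtain ⟨r, hr⟩ : ∃ r, r = ν + 2 + i * m := ⟨_, rfl⟩
  obtain ⟨r', hr'⟩ : ∃ r', r' = ν + 2 + j * m := ⟨_, rfl⟩
  have hlen := VV_length ν m i j hm
  have hrr : r < r' := by
    have : i * m < j * m := Nat.mul_lt_mul_of_pos_right hij hm
    omega
  rw [← hr, ← hr'] at h hlen
  have hC : (cword e c).length = 15 := by simp
  have hC0 : 0 < (cword e c).length := by omega
  have hU := unb_c he
  obtain ⟨C, hCdef⟩ : ∃ C, C = cword e c := ⟨_, rfl⟩
  rw [← hCdef] at hC hC0 hU
  have encc : ∀ l : List Ltr, enc e (c :: l) = C ++ enc e l := by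
    intro l; rw [enc_cons, hCdef]
  have enc1 : enc e [c] = C := by rw [encc]; simp
  have encw : enc e (c :: (ww ν m ++ [c])) = C ++ enc e (ww ν m) ++ C := by
    rw [encc, enc_append, enc1]; simp
  have encV : enc e (c :: (VV ν m r r' ++ [c])) = C ++ enc e (VV ν m r r') ++ C := by
    rw [encc, enc_append, enc1]; simp
  have hocc : ∀ V : List Ltr, occ C (enc e V) = V.count c := by
    intro V; rw [hCdef]; exact occ_enc he V
  -- only long steps
  have h9 : ReflTransGen (StepG 9 (ν + 2) m) (u ++ enc e (c :: (ww ν m ++ [c])) ++ v)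
      (u ++ enc e (c :: (VV ν m r r' ++ [c])) ++ v) := by
    refine stepG_nine (by omega) hm h ?_
    intro p hp hp8
    obtain ⟨y, hy⟩ := ww_split ν m
    obtain ⟨y', hy'⟩ := VV_split (ν := ν) hm r r'
    have e1 : enc e (c :: (ww ν m ++ [c])) = (C ++ C) ++ enc e y ++ (C ++ C) := by
      rw [hy, encc]
      have : c :: (y ++ [c]) ++ [c] = c :: (y ++ ([c] ++ [c])) := by simp
      rw [this, encc, enc_append, enc_append, enc1]; simp
    have e2 : enc e (c :: (VV ν m r r' ++ [c])) = (C ++ C) ++ enc e y' ++ (C ++ C) := by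
      rw [hy', encc]
      have : c :: (y' ++ [c]) ++ [c] = c :: (y' ++ ([c] ++ [c])) := by simp
      rw [this, encc, enc_append, enc_append, enc1]; simp
    have hno : ∀ k, ¬ Per p ((C ++ C) ++ enc e y' ++ (C ++ C)) k := by
      intro k
      rw [← e2]
      exact no_per he _ hp hp8 k
    rw [e1, e2]
    apply cnt_ctx (by omega) _ _ _ _ _ _ (by simp; omega) (by simp; omega) _ hno
    rw [length_enc, length_enc]
    rw [hy, hy'] at hlen
    simp at hlen
    omega
  have hcount : (c :: (VV ν m r r' ++ [c])).count c = (c :: (ww ν m ++ [c])).count c + m := by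
    have h1 := bl_length c (c :: (VV ν m r r' ++ [c]))
    have h2 := bl_length c (c :: (ww ν m ++ [c]))
    rw [bl_gVV] at h1
    rw [bl_gww] at h2
    simp only [List.length_cons, List.length_append, List.length_replicate, List.length_nil]
      at h1 h2
    omega
  have ho : occ C (C ++ enc e (VV ν m r r') ++ C) = occ C (C ++ enc e (ww ν m) ++ C) + m := by
    rw [← encw, ← encV, hocc, hocc, hcount]
  have hCC : occ C (C ++ C) = 2 := by
    have := hocc [c, c]
    rw [encc, enc1] at this
    rw [this]; rfl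
  have h9' : ReflTransGen (StepG 9 (ν + 2) m) (u ++ C ++ (enc e (ww ν m) ++ C ++ v))
      (u ++ C ++ (enc e (VV ν m r r') ++ C ++ v)) := by
    have e1 : u ++ C ++ (enc e (ww ν m) ++ C ++ v) = u ++ enc e (c :: (ww ν m ++ [c])) ++ v := by
      rw [encw]; simp
    have e2 : u ++ C ++ (enc e (VV ν m r r') ++ C ++ v)
        = u ++ enc e (c :: (VV ν m r r' ++ [c])) ++ v := by
      rw [encV]; simp
    rw [e1, e2]; exact h9
  -- an empty block does not derive a block `T`
  have hbad : ∀ T : List Ltr, T ≠ [] → c ∉ T →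
      ¬ ReflTransGen (FS C (ν + 2) m) (C ++ C) (C ++ enc e T ++ C) := by
    intro T hT hcT h1
    have h2 := rtg_FS h1
    have e1 : C ++ C = enc e [c, c] := by rw [encc, enc1]
    have e2 : C ++ enc e T ++ C = enc e (c :: (T ++ [c])) := by
      rw [encc, enc_append, enc1]; simp
    rw [e1, e2] at h2
    have h3 := (mem_L_enc he (n := ν + 2) (m := m) (by omega) hm (by omega) [c, c]
      (c :: (T ++ [c]))).mp h2
    exact hT (empty_block (by omega) hm hcT h3)
  have hcT : ∀ T : List Ltr, c ∉ T → occ C (C ++ enc e T ++ C) = 2 := by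
    intro T hT
    have e2 : C ++ enc e T ++ C = enc e (c :: (T ++ [c])) := by
      rw [encc, enc_append, enc1]; simp
    rw [e2, hocc]
    simp [List.count_eq_zero.mpr hT]
  rcases middle hC hU (by omega) hm h9' ho with h1 | h1 | h1
  · rw [← encw, ← encV] at h1
    exact not_gVV hm (by omega) hrr
      ((mem_L_enc he (n := ν + 2) (m := m) (by omega) hm (by omega) _ _).mp h1)
  · obtain ⟨p, T, q, h2, h3, h4, h5⟩ := gVV_left (ν := ν) (r := r) (r' := r') hm (by omega)
      (by omega)
    have e1 : u ++ C ++ (enc e (VV ν m r r') ++ C ++ v)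
        = (u ++ enc e (c :: p)) ++ C ++ (enc e T ++ C ++ (enc e q ++ v)) := by
      have : u ++ C ++ (enc e (VV ν m r r') ++ C ++ v)
          = u ++ enc e (c :: (VV ν m r r' ++ [c])) ++ v := by rw [encV]; simp
      rw [this, h2, enc_append, encc (T ++ c :: q), enc_append e T, encc q]
      simp
    have o1 : occ C ((u ++ enc e (c :: p)) ++ C) = occ C (u ++ C) + m := by
      have h6 := occ_split hC0 u (enc e p ++ C)
      have e2 : u ++ C ++ (enc e p ++ C) = (u ++ enc e (c :: p)) ++ C := by
        rw [encc]; simp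
      have e3 : C ++ (enc e p ++ C) = enc e ((c :: p) ++ [c]) := by
        rw [enc_append, encc, enc1]; simp
      rw [e2, e3, hocc, List.count_append, h3, List.count_singleton_self] at h6
      omega
    have h6 := h1 _ _ e1 o1
    obtain ⟨y, hy⟩ := ww_split ν m
    have e4 : C ++ (enc e (ww ν m) ++ C ++ v) = C ++ C ++ (enc e (y ++ [c]) ++ C ++ v) := by
      rw [hy, encc]; simp
    have e5 : C ++ (enc e T ++ C ++ (enc e q ++ v)) = (C ++ enc e T) ++ C ++ (enc e q ++ v) := by
      simp
    rw [e4, e5] at h6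
    have h7 := (rtg_cut_left hC hU (by omega) h6 (by rw [hCC, hcT T h5])).1
    exact hbad T h4 h5 h7
  · obtain ⟨p, T, q, h2, h3, h4, h5⟩ := gVV_right (ν := ν) (r := r) (r' := r') hm (by omega)
    have e1 : u ++ C ++ (enc e (VV ν m r r') ++ C ++ v)
        = (u ++ enc e p ++ C ++ enc e T) ++ C ++ (enc e q ++ C ++ v) := by
      have : u ++ C ++ (enc e (VV ν m r r') ++ C ++ v)
          = u ++ enc e (c :: (VV ν m r r' ++ [c])) ++ v := by rw [encV]; simp
      rw [this, h2, enc_append, encc (T ++ c :: (q ++ [c])), enc_append e T, encc (q ++ [c]),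
        enc_append e q, enc1]
      simp
    have o1 : occ C (C ++ (enc e q ++ C ++ v)) = occ C (C ++ v) + m := by
      have h6 := occ_split hC0 (C ++ enc e q) v
      have e2 : C ++ enc e q ++ C ++ v = C ++ (enc e q ++ C ++ v) := by simp
      have e3 : C ++ enc e q ++ C = enc e (c :: (q ++ [c])) := by
        rw [encc, enc_append, enc1]; simp
      rw [e2, e3, hocc, List.count_cons_self, h3] at h6
      omega
    have h6 := h1 _ _ e1 o1
    obtain ⟨y, hy⟩ := ww_split ν m
    have e4 : u ++ C ++ enc e (ww ν m) ++ C = (u ++ C ++ enc e (c :: y)) ++ C ++ C := by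
      rw [hy]
      have : c :: (y ++ [c]) = (c :: y) ++ [c] := rfl
      rw [this, enc_append, enc1]; simp
    have e5 : u ++ enc e p ++ C ++ enc e T ++ C = (u ++ enc e p) ++ C ++ (enc e T ++ C) := by
      simp
    rw [e4, e5] at h6
    have h7 := (rtg_cut_right hC hU (by omega) h6 (by
      rw [hCC, ← List.append_assoc C, hcT T h5])).2
    rw [← List.append_assoc C] at h7
    exact hbad T h4 h5 h7

/-- For `n ≥ 2`: one word all of whose two-sided extensions generate non-regular languages. -/
theorem all_ctx {e : Bool → A} (he : Function.Injective e) (n m : ℕ) (hn : 2 ≤ n) (hm : 1 ≤ m) :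
    ∃ z : List A, ∀ u v : List A, ¬ (L n m (u ++ z ++ v)).IsRegular := by
  obtain ⟨ν, rfl⟩ : ∃ ν, n = ν + 2 := ⟨n - 2, by omega⟩
  refine ⟨enc e (c :: (ww ν m ++ [c])), fun u v => ?_⟩
  have key : ∀ i j : ℕ, (u ++ enc e (c :: pre ν m (ν + 2 + i * m))) ++
      (enc e (wpow (TT ν m (ν + 2 + j * m) ++ [c]) (ν + 1 + m) ++ [c]) ++ v)
      = u ++ enc e (c :: (VV ν m (ν + 2 + i * m) (ν + 2 + j * m) ++ [c])) ++ v := by
    intro i j
    rw [VV_eq]
    have : c :: (pre ν m (ν + 2 + i * m) ++ wpow (TT ν m (ν + 2 + j * m) ++ [c]) (ν + 1 + m)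
        ++ [c]) = (c :: pre ν m (ν + 2 + i * m)) ++
        (wpow (TT ν m (ν + 2 + j * m) ++ [c]) (ν + 1 + m) ++ [c]) := by simp
    rw [this, enc_append e (c :: pre ν m (ν + 2 + i * m))]
    simp
  refine not_regular_of_quotients (fun i => u ++ enc e (c :: pre ν m (ν + 2 + i * m)))
    (fun i => enc e (wpow (TT ν m (ν + 2 + i * m) ++ [c]) (ν + 1 + m) ++ [c]) ++ v) ?_ ?_
  · intro i
    rw [key i i]
    have h1 := ww_VV ν m i
    have h2 := rtg_context h1 [c] [c]
    have h3 := (mem_L_enc he (n := ν + 2) (m := m) (by omega) hm (by omega)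
      (c :: (ww ν m ++ [c])) (c :: (VV ν m (ν + 2 + i * m) (ν + 2 + i * m) ++ [c]))).mpr
      (by
        have e1 : [c] ++ ww ν m ++ [c] = c :: (ww ν m ++ [c]) := rfl
        have e2 : [c] ++ VV ν m (ν + 2 + i * m) (ν + 2 + i * m) ++ [c]
            = c :: (VV ν m (ν + 2 + i * m) (ν + 2 + i * m) ++ [c]) := rfl
        rw [e1, e2] at h2
        exact h2)
    exact rtg_context h3 u v
  · intro i j hij h
    rw [key i j] at h
    exact not_ctx he hm hij u v h

end ctx

end Pool.Agent.Helper93.FB
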