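import Pool.Agent.Helper93.FB.Occ

set_option autoImplicit false

/-!
Derivations by free steps act on both sides of every occurrence of `C`.
-/

namespace Pool.Agent.Helper93.FB

open Pool.Agent.Helper84.CopyLang Relation

universe u

section cut
variable {A : Type u}

/-- a free step next to an occurrence of `C` -/
lemma FS.cut {C : List A} (hC : C.length = 15) {n m : ℕ} (hn : 2 ≤ n)
    {P Q t : List A} (h : FS C n m (P ++ C ++ Q) t) :
    (∃ P', t = P' ++ C ++ Q ∧ FS C n m (P ++ C) (P' ++ C)) ∨
      (∃ Q', t = P ++ C ++ Q' ∧ FS C n m (C ++ Q) (C ++ Q')) := by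
  obtain ⟨α, x, β, hx, hf, h1, rfl⟩ := h
  have hnr : 2 * x.length ≤ n * x.length := Nat.mul_le_mul_right _ hn
  have hlen : P.length + 15 + Q.length = α.length + n * x.length + β.length := by
    have := congrArg List.length h1
    simp at this
    omega
  by_cases hc : α.length + n * x.length ≤ P.length + 15
  · left
    -- the power is on the left
    rw [List.append_assoc] at h1
    obtain ⟨a, ha1, ha2⟩ : ∃ a, P = α ++ a ∧ wpow x n ++ β = a ++ (C ++ Q) := by
      rw [List.append_assoc] at h1
      rcases List.append_eq_append_iff.mp h1 with ⟨a', h2, h3⟩ | ⟨c', h2, h3⟩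
      · -- α = P ++ a'
        have : a'.length = 0 := by
          have := congrArg List.length h2
          simp at this; omega
        have h4 : a' = [] := List.length_eq_zero_iff.mp this
        subst h4
        exact ⟨[], by simpa using h2.symm, by simpa using h3.symm⟩
      · exact ⟨c', h2, h3⟩
    have h5 : wpow x n ++ β = (a ++ C) ++ Q := by rw [ha2]; simp
    obtain ⟨b, hb1, hb2⟩ : ∃ b, a ++ C = wpow x n ++ b ∧ β = b ++ Q := by
      rcases List.append_eq_append_iff.mp h5 with ⟨a', h2, h3⟩ | ⟨c', h2, h3⟩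
      · exact ⟨a', h2, h3⟩
      · have : c'.length = 0 := by
          have e1 := congrArg List.length h2
          have e2 := congrArg List.length ha1
          simp at e1 e2; omega
        have h4 : c' = [] := List.length_eq_zero_iff.mp this
        subst h4
        exact ⟨[], by simpa using h2.symm, by simpa using h3.symm⟩
    refine ⟨α ++ wpow x m ++ a, ?_, α, x, b, hx, hf, ?_, ?_⟩
    · rw [add_comm n m, wpow_add]
      have : α ++ (wpow x m ++ wpow x n) ++ β = α ++ wpow x m ++ (wpow x n ++ β) := by simp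
      rw [this, ha2]; simp
    · rw [ha1, List.append_assoc, hb1]; simp
    · rw [add_comm n m, wpow_add]
      have : α ++ (wpow x m ++ wpow x n) ++ b = α ++ wpow x m ++ (wpow x n ++ b) := by simp
      rw [this, ← hb1]; simp
  · right
    have hP : P.length < α.length := by
      by_contra hP
      push Not at hP
      apply hf (P.length - α.length)
      intro j hj
      have h2 := At.mid P C Q j hj
      rw [h1, get_mid _ _ _ _ _ (by omega) (by omega)] at h2
      rw [wpow_get _ _ _ (by omega), ← h2]
      congr 2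
      omega
    rw [List.append_assoc P C Q, List.append_assoc] at h1
    obtain ⟨a, ha1, ha2⟩ : ∃ a, α = P ++ a ∧ C ++ Q = a ++ (wpow x n ++ β) := by
      rcases List.append_eq_append_iff.mp h1 with ⟨a', h2, h3⟩ | ⟨c', h2, h3⟩
      · exact ⟨a', h2, h3⟩
      · have := congrArg List.length h2
        simp at this; omega
    have h5 : C ++ Q = (a ++ wpow x n) ++ β := by rw [ha2]; simp
    obtain ⟨b, hb1, hb2⟩ : ∃ b, a ++ wpow x n = C ++ b ∧ Q = b ++ β := by
      rcases List.append_eq_append_iff.mp h5 with ⟨a', h2, h3⟩ | ⟨c', h2, h3⟩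
      · exact ⟨a', h2, h3⟩
      · have : c'.length = 0 := by
          have e1 := congrArg List.length h2
          simp at e1; omega
        have h4 : c' = [] := List.length_eq_zero_iff.mp this
        subst h4
        exact ⟨[], by simpa using h2.symm, by simpa using h3.symm⟩
    refine ⟨b ++ wpow x m ++ β, ?_, a, x, β, hx, hf, ?_, ?_⟩
    · rw [wpow_add, ha1]
      have : P ++ a ++ (wpow x n ++ wpow x m) ++ β = P ++ ((a ++ wpow x n) ++ wpow x m ++ β) := by
        simp
      rw [this, hb1]; simp
    · rw [h5]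
    · rw [wpow_add]
      have : a ++ (wpow x n ++ wpow x m) ++ β = (a ++ wpow x n) ++ wpow x m ++ β := by simp
      rw [this, hb1]; simp

lemma rtg_cut {C : List A} (hC : C.length = 15) {n m : ℕ} (hn : 2 ≤ n) {s t : List A}
    (h : ReflTransGen (FS C n m) s t) {P Q : List A} (hs : s = P ++ C ++ Q) :
    ∃ P' Q', t = P' ++ C ++ Q' ∧ ReflTransGen (FS C n m) (P ++ C) (P' ++ C) ∧
      ReflTransGen (FS C n m) (C ++ Q) (C ++ Q') := by
  induction h with
  | refl => exact ⟨P, Q, hs, ReflTransGen.refl, ReflTransGen.refl⟩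
  | @tail y z _ h2 ih =>
    obtain ⟨P1, Q1, h3, h4, h5⟩ := ih
    rw [h3] at h2
    rcases h2.cut hC hn with ⟨P', h6, h7⟩ | ⟨Q', h6, h7⟩
    · exact ⟨P', Q1, h6, h4.tail h7, h5⟩
    · exact ⟨P1, Q', h6, h4, h5.tail h7⟩

/-- the position of the occurrence in the result is determined by the number of occurrences
up to it -/
lemma rtg_cut_left {C : List A} (hC : C.length = 15) (hU : Unb C) {n m : ℕ} (hn : 2 ≤ n)
    {P Q P2 Q2 : List A} (h : ReflTransGen (FS C n m) (P ++ C ++ Q) (P2 ++ C ++ Q2))
    (ho : occ C (P ++ C) = occ C (P2 ++ C)) :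
    ReflTransGen (FS C n m) (P ++ C) (P2 ++ C) ∧
      ReflTransGen (FS C n m) (C ++ Q) (C ++ Q2) := by
  obtain ⟨P', Q', h1, h2, h3⟩ := rtg_cut hC hn h rfl
  have h4 := rtg_FS_occ hC hU hn h2
  obtain ⟨h5, h6⟩ := occ_unique (by omega) h1.symm (h4.trans ho)
  subst h5; subst h6
  exact ⟨h2, h3⟩

lemma rtg_cut_right {C : List A} (hC : C.length = 15) (hU : Unb C) {n m : ℕ} (hn : 2 ≤ n)
    {P Q P2 Q2 : List A} (h : ReflTransGen (FS C n m) (P ++ C ++ Q) (P2 ++ C ++ Q2))
    (ho : occ C (C ++ Q) = occ C (C ++ Q2)) :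
    ReflTransGen (FS C n m) (P ++ C) (P2 ++ C) ∧
      ReflTransGen (FS C n m) (C ++ Q) (C ++ Q2) := by
  apply rtg_cut_left hC hU hn h
  have h1 := occ_split (C := C) (by omega) P Q
  have h2 := occ_split (C := C) (by omega) P2 Q2
  have h3 := rtg_FS_occ hC hU hn h
  omega

/-- The main statement on contexts.  `C ++ Y ++ C` is the word in the middle at the beginning,
`C ++ Y' ++ C` at the end.  Either the middle derives the middle, or (the two bad cases) the
occurrence of `C` at the left end (at the right end) is moved by `m`. -/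
lemma middle {C : List A} (hC : C.length = 15) (hU : Unb C) {n m : ℕ} (hn : 2 ≤ n) (hm : 1 ≤ m)
    {u v Y Y' : List A}
    (h : ReflTransGen (StepG 9 n m) (u ++ C ++ (Y ++ C ++ v)) (u ++ C ++ (Y' ++ C ++ v)))
    (ho : occ C (C ++ Y' ++ C) = occ C (C ++ Y ++ C) + m) :
    ReflTransGen (Step n m) (C ++ Y ++ C) (C ++ Y' ++ C) ∨
    (∀ P Q, u ++ C ++ (Y' ++ C ++ v) = P ++ C ++ Q → occ C (P ++ C) = occ C (u ++ C) + m →
      ReflTransGen (FS C n m) (C ++ (Y ++ C ++ v)) (C ++ Q)) ∨
    (∀ P Q, u ++ C ++ (Y' ++ C ++ v) = P ++ C ++ Q → occ C (C ++ Q) = occ C (C ++ v) + m →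
      ReflTransGen (FS C n m) (u ++ C ++ Y ++ C) (P ++ C)) := by
  have hC0 : 0 < C.length := by omega
  have hC1 : occ C C = 1 := by
    have := occ_split hC0 ([] : List A) []
    simp at this
    omega
  -- the numbers of occurrences
  have o1 := occ_split hC0 u (Y ++ C ++ v)
  have o2 := occ_split hC0 u (Y' ++ C ++ v)
  have o3 := occ_split hC0 (C ++ Y) v
  have o4 := occ_split hC0 (C ++ Y') v
  have a1 : C ++ (Y ++ C ++ v) = C ++ Y ++ C ++ v := by simp
  have a2 : C ++ (Y' ++ C ++ v) = C ++ Y' ++ C ++ v := by simp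
  rw [a1] at o1
  rw [a2] at o2
  rcases one_step hC hU hn hm h (by omega) with h1 | ⟨α, x, β, hx, h1, h2, ⟨o, hoo⟩, h3⟩
  · -- only free steps: impossible, but also harmless
    left
    have := rtg_FS_occ hC hU hn h1
    omega
  -- positions of the two outer occurrences before the step
  have hnr : 2 * x.length ≤ n * x.length := Nat.mul_le_mul_right _ hn
  obtain ⟨Lw, Q0, hW, hL, hQ⟩ := rtg_cut hC hn h1 rfl
  rw [a1] at hQ
  obtain ⟨Pw, Rw, hW2, hM, hR⟩ := rtg_cut hC hn hQ (P := C ++ Y) (Q := v) rfl
  have hLo := rtg_FS_occ hC hU hn hL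
  have hRo := rtg_FS_occ hC hU hn hR
  have hMo := rtg_FS_occ hC hU hn hM
  have hlen : α.length + n * x.length + β.length = Lw.length + (Pw.length + 15 + Rw.length) := by
    have e1 := congrArg List.length hW
    have e2 := congrArg List.length hW2
    simp at e1 e2
    omega
  -- the second occurrence is behind the first
  have hPw : 15 ≤ Pw.length := by
    have h4 := Pool.Agent.Helper74.CopyReg.rtg_length_le (rtg_FS hM)
    simp at h4
    omega
  obtain ⟨Pw', hPw'⟩ : ∃ Pw', Pw = C ++ Pw' := by
    rw [List.append_assoc] at hW2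
    rcases List.append_eq_append_iff.mp hW2 with ⟨a', h5, h6⟩ | ⟨c', h5, h6⟩
    · exact ⟨a', h5⟩
    · have : c'.length = 0 := by
        have := congrArg List.length h5
        simp at this; omega
      have h4 : c' = [] := List.length_eq_zero_iff.mp this
      subst h4
      exact ⟨[], by simpa using h5.symm⟩
  subst hPw'
  by_cases ca : α.length ≤ Lw.length
  · -- the left occurrence is moved
    right; left
    intro P Q hPQ hoP
    rw [List.append_assoc, List.append_assoc] at hW
    obtain ⟨a, ha1, ha2⟩ : ∃ a, Lw = α ++ a ∧ wpow x n ++ β = a ++ (C ++ Q0) := by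
      rcases List.append_eq_append_iff.mp hW with ⟨a', h5, h6⟩ | ⟨c', h5, h6⟩
      · exact ⟨a', h5, h6⟩
      · have : c'.length = 0 := by
          have := congrArg List.length h5
          simp at this; omega
        have h4 : c' = [] := List.length_eq_zero_iff.mp this
        subst h4
        exact ⟨[], by simpa using h5.symm, by simpa using h6.symm⟩
    have e1 : α ++ wpow x (n + m) ++ β = (α ++ wpow x m ++ a) ++ C ++ Q0 := by
      rw [add_comm n m, wpow_add]
      have : α ++ (wpow x m ++ wpow x n) ++ β = α ++ wpow x m ++ (wpow x n ++ β) := by simp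
      rw [this, ha2]; simp
    have e2 : α ++ wpow x n ++ β = Lw ++ C ++ Q0 := by
      rw [List.append_assoc, ha2, ha1]; simp
    have o5 := occ_split hC0 (α ++ wpow x m ++ a) Q0
    have o6 := occ_split hC0 Lw Q0
    rw [← e1] at o5
    rw [← e2] at o6
    rw [hPQ, e1] at h2
    have h7 := (rtg_cut_left hC hU hn h2 (by omega)).2
    rw [a1]
    exact hQ.trans h7
  by_cases cb : Lw.length + (C ++ Pw').length + 15 ≤ α.length + n * x.length
  · -- the right occurrence is moved
    right; right
    intro P Q hPQ hoP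
    have e3 : α ++ wpow x n ++ β = (Lw ++ (C ++ Pw') ++ C) ++ Rw := by
      rw [hW, List.append_assoc Lw C Q0, hW2]; simp
    obtain ⟨b, hb1, hb2⟩ : ∃ b, α ++ wpow x n = (Lw ++ (C ++ Pw') ++ C) ++ b ∧ Rw = b ++ β := by
      rcases List.append_eq_append_iff.mp e3 with ⟨a', h5, h6⟩ | ⟨c', h5, h6⟩
      · have : a'.length = 0 := by
          have := congrArg List.length h5
          simp at this cb; omega
        have h4 : a' = [] := List.length_eq_zero_iff.mp this
        subst h4
        exact ⟨[], by simpa using h5.symm, by simpa using h6.symm⟩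
      · exact ⟨c', h5, h6⟩
    have e4 : α ++ wpow x (n + m) ++ β = (Lw ++ (C ++ Pw')) ++ C ++ (b ++ wpow x m ++ β) := by
      rw [wpow_add]
      have : α ++ (wpow x n ++ wpow x m) ++ β = (α ++ wpow x n) ++ wpow x m ++ β := by simp
      rw [this, hb1]; simp
    have e5 : α ++ wpow x n ++ β = (Lw ++ (C ++ Pw')) ++ C ++ Rw := by rw [e3]
    have o5 := occ_split hC0 (Lw ++ (C ++ Pw')) (b ++ wpow x m ++ β)
    have o6 := occ_split hC0 (Lw ++ (C ++ Pw')) Rw
    rw [← e4] at o5
    rw [← e5] at o6
    rw [hPQ, e4] at h2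
    have h7 := (rtg_cut_right hC hU hn h2 (by omega)).1
    refine ReflTransGen.trans ?_ h7
    -- the part up to the right occurrence
    have h8 : ReflTransGen (FS C n m) ((u ++ C ++ Y) ++ C ++ v)
        ((Lw ++ (C ++ Pw')) ++ C ++ Rw) := by
      rw [← e5]
      have : u ++ C ++ (Y ++ C ++ v) = (u ++ C ++ Y) ++ C ++ v := by simp
      rw [← this]; exact h1
    exact (rtg_cut_right hC hU hn h8 (by rw [hRo])).1
  · -- the step is inside
    left
    rw [List.append_assoc α, List.append_assoc Lw] at hW
    obtain ⟨g, hg1, hg2⟩ : ∃ g, α = Lw ++ g ∧ C ++ Q0 = g ++ (wpow x n ++ β) := by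
      rcases List.append_eq_append_iff.mp hW with ⟨a', h5, h6⟩ | ⟨c', h5, h6⟩
      · have := congrArg List.length h5
        simp at this; omega
      · exact ⟨c', h5, h6⟩
    have e6 : (g ++ wpow x n) ++ β = (C ++ Pw' ++ C) ++ Rw := by
      rw [← hW2, hg2]; simp
    obtain ⟨dl, hd1, hd2⟩ : ∃ dl, C ++ Pw' ++ C = g ++ wpow x n ++ dl ∧ β = dl ++ Rw := by
      rcases List.append_eq_append_iff.mp e6 with ⟨a', h5, h6⟩ | ⟨c', h5, h6⟩
      · exact ⟨a', h5, h6⟩
      · have : c'.length = 0 := by
          have h9 := congrArg List.length h5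
          have h10 := congrArg List.length hg1
          simp at h9 h10 cb; omega
        have h4 : c' = [] := List.length_eq_zero_iff.mp this
        subst h4
        exact ⟨[], by simpa using h5.symm, by simpa using h6.symm⟩
    have hgl : g.length + n * x.length + dl.length = 30 + Pw'.length := by
      have := congrArg List.length hd1
      simp at this; omega
    -- `C` is a prefix and a suffix of the new middle
    obtain ⟨b1, hb1⟩ : ∃ b1, g ++ wpow x n = C ++ b1 := by
      have e7 : (g ++ wpow x n) ++ dl = C ++ (Pw' ++ C) := by rw [← hd1]; simp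
      rcases List.append_eq_append_iff.mp e7 with ⟨a', h5, h6⟩ | ⟨c', h5, h6⟩
      · have : a'.length = 0 := by
          have := congrArg List.length h5
          simp at this; omega
        have h4 : a' = [] := List.length_eq_zero_iff.mp this
        subst h4
        exact ⟨[], by simpa using h5.symm⟩
      · exact ⟨c', h5⟩
    obtain ⟨b2, hb2⟩ : ∃ b2, wpow x n ++ dl = b2 ++ C := by
      have e7 : g ++ (wpow x n ++ dl) = (C ++ Pw') ++ C := by rw [hd1]; simp
      rcases List.append_eq_append_iff.mp e7 with ⟨a', h5, h6⟩ | ⟨c', h5, h6⟩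
      · exact ⟨a', h6⟩
      · have : c'.length = 0 := by
          have h9 := congrArg List.length h6
          simp at h9; omega
        have h4 : c' = [] := List.length_eq_zero_iff.mp this
        subst h4
        exact ⟨[], by simpa using h6.symm⟩
    have f1 : g ++ wpow x (n + m) ++ dl = C ++ (b1 ++ wpow x m ++ dl) := by
      rw [wpow_add]
      have : g ++ (wpow x n ++ wpow x m) ++ dl = (g ++ wpow x n) ++ wpow x m ++ dl := by simp
      rw [this, hb1]; simp
    have f2 : g ++ wpow x (n + m) ++ dl = (g ++ wpow x m ++ b2) ++ C := by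
      rw [add_comm n m, wpow_add]
      have : g ++ (wpow x m ++ wpow x n) ++ dl = g ++ wpow x m ++ (wpow x n ++ dl) := by simp
      rw [this, hb2]; simp
    have f3 : α ++ wpow x (n + m) ++ β = Lw ++ C ++ ((b1 ++ wpow x m ++ dl) ++ Rw) := by
      rw [hg1, hd2]
      have : Lw ++ g ++ wpow x (n + m) ++ (dl ++ Rw)
          = Lw ++ (g ++ wpow x (n + m) ++ dl) ++ Rw := by simp
      rw [this, f1]; simp
    rw [f3] at h2
    have h7 := (rtg_cut_left hC hU hn h2 hLo).2
    have f4 : C ++ ((b1 ++ wpow x m ++ dl) ++ Rw) = (g ++ wpow x m ++ b2) ++ C ++ Rw := by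
      rw [← f2, f1]; simp
    rw [f4, a2] at h7
    have h8 := (rtg_cut_right hC hU hn h7 hRo).1
    rw [← f2] at h8
    refine (rtg_FS hM).trans (ReflTransGen.head ⟨g, x, dl, hd1, rfl⟩ (rtg_FS h8))

end cut

end Pool.Agent.Helper93.FB
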