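import Mathlib

set_option autoImplicit false

/-!
Words of length `N` which avoid a fixed factor are exponentially few.
-/

namespace Pool.Agent.Helper93.FB

universe u

section dens
variable {A : Type u} [Fintype A]

/-- the words of length `N` without the factor `z` -/
def Avoid (z : List A) (N : ℕ) : Set (List A) := {w | w.length = N ∧ ¬ z <:+: w}

lemma ncard_len (N : ℕ) : {w : List A | w.length = N}.ncard = Fintype.card A ^ N := by
  have h : Nat.card (List.Vector A N) = Fintype.card A ^ N := by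
    rw [Nat.card_eq_fintype_card, card_vector]
  rw [← h]
  rfl

lemma finite_len (N : ℕ) : {w : List A | w.length = N}.Finite := List.finite_length_eq A N

lemma avoid_finite (z : List A) (N : ℕ) : (Avoid z N).Finite :=
  (finite_len N).subset (fun _ h => h.1)

lemma avoid_le (z : List A) (N : ℕ) : (Avoid z N).ncard ≤ Fintype.card A ^ N := by
  rw [← ncard_len N]
  exact Set.ncard_le_ncard (fun _ h => h.1) (finite_len N)

lemma avoid_rec (z : List A) (N : ℕ) :
    (Avoid z (z.length + N)).ncard ≤ (Fintype.card A ^ z.length - 1) * (Avoid z N).ncard := by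
  set B : Set (List A) := {w | w.length = z.length} \ {z} with hB
  have hBf : B.Finite := (finite_len _).subset Set.sdiff_subset
  have hBc : B.ncard = Fintype.card A ^ z.length - 1 := by
    rw [hB, Set.ncard_sdiff_singleton_of_mem (by rfl), ncard_len]
  have hsub : Avoid z (z.length + N) ⊆ (fun p : List A × List A => p.1 ++ p.2) ''
      (B ×ˢ Avoid z N) := by
    rintro w ⟨h1, h2⟩
    refine ⟨(w.take z.length, w.drop z.length), ⟨⟨?_, ?_⟩, ?_, ?_⟩, List.take_append_drop _ _⟩
    · change (w.take z.length).length = z.length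
      simp; omega
    · intro h3
      apply h2
      have h3' : w.take z.length = z := h3
      have h4 : w.take z.length ++ w.drop z.length = w := List.take_append_drop _ _
      rw [h3'] at h4
      exact ⟨[], w.drop z.length, by rw [List.nil_append]; exact h4⟩
    · simp; omega
    · intro h3
      exact h2 (h3.trans (List.drop_suffix _ _).isInfix)
  calc (Avoid z (z.length + N)).ncard
      ≤ ((fun p : List A × List A => p.1 ++ p.2) '' (B ×ˢ Avoid z N)).ncard :=
        Set.ncard_le_ncard hsub ((hBf.prod (avoid_finite z N)).image _)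
    _ ≤ (B ×ˢ Avoid z N).ncard := Set.ncard_image_le (hBf.prod (avoid_finite z N))
    _ = (Fintype.card A ^ z.length - 1) * (Avoid z N).ncard := by
        rw [Set.ncard_prod, hBc]

lemma avoid_bound (z : List A) (hz : 1 ≤ z.length) (hA : 1 ≤ Fintype.card A) (N : ℕ) :
    (Avoid z N).ncard ≤ Fintype.card A ^ z.length *
      (Fintype.card A ^ z.length - 1) ^ (N / z.length) := by
  induction N using Nat.strong_induction_on with
  | _ N ih =>
    rcases Nat.lt_or_ge N z.length with h | h
    · rw [Nat.div_eq_of_lt h, pow_zero, mul_one]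
      exact (avoid_le z N).trans (Nat.pow_le_pow_right hA h.le)
    · obtain ⟨M, rfl⟩ : ∃ M, N = z.length + M := ⟨N - z.length, by omega⟩
      have h1 := avoid_rec z M
      have h2 := ih M (by omega)
      rw [Nat.add_div_left _ hz, pow_succ]
      calc (Avoid z (z.length + M)).ncard
          ≤ (Fintype.card A ^ z.length - 1) * (Avoid z M).ncard := h1
        _ ≤ (Fintype.card A ^ z.length - 1) * (Fintype.card A ^ z.length *
              (Fintype.card A ^ z.length - 1) ^ (M / z.length)) := Nat.mul_le_mul_left _ h2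
        _ = _ := by ring

lemma avoid_exp (z : List A) (hz : 1 ≤ z.length) (hA : 2 ≤ Fintype.card A) :
    ∃ ρ K : ℝ, 0 < ρ ∧ ρ < Fintype.card A ∧ ∀ N : ℕ, ((Avoid z N).ncard : ℝ) ≤ K * ρ ^ N := by
  obtain ⟨q, hq⟩ : ∃ q, q = Fintype.card A := ⟨_, rfl⟩
  obtain ⟨l, hl⟩ : ∃ l, l = z.length := ⟨_, rfl⟩
  have hb := avoid_bound z hz (by omega)
  rw [← hq, ← hl] at hb
  rw [← hq] at hA ⊢
  rw [← hl] at hz
  have hq2 : (2 : ℝ) ≤ (q : ℝ) := by exact_mod_cast hA
  have h2 : (2 : ℝ) ≤ (q : ℝ) ^ l := by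
    calc (2 : ℝ) ≤ q := hq2
      _ = (q : ℝ) ^ 1 := (pow_one _).symm
      _ ≤ (q : ℝ) ^ l := pow_le_pow_right₀ (by linarith) hz
  obtain ⟨ρ, hρ⟩ : ∃ ρ : ℝ, ρ = ((q : ℝ) ^ l - 1) ^ ((l : ℝ)⁻¹) := ⟨_, rfl⟩
  have hρl : ρ ^ l = (q : ℝ) ^ l - 1 := by
    rw [hρ]; exact Real.rpow_inv_natCast_pow (by linarith) (by omega)
  have hρ0 : 0 < ρ := by rw [hρ]; exact Real.rpow_pos_of_pos (by linarith) _
  have hρ1 : 1 ≤ ρ := by
    by_contra h
    push Not at h
    have := pow_lt_one₀ hρ0.le h (by omega : l ≠ 0)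
    rw [hρl] at this
    linarith
  refine ⟨ρ, (q : ℝ) ^ l, hρ0, ?_, fun N => ?_⟩
  · apply lt_of_pow_lt_pow_left₀ l (by linarith)
    rw [hρl]; linarith
  · have h3 : ((Avoid z N).ncard : ℝ) ≤ (q : ℝ) ^ l * ((q ^ l - 1 : ℕ) : ℝ) ^ (N / l) := by
      exact_mod_cast hb N
    have h4 : ((q ^ l - 1 : ℕ) : ℝ) = ρ ^ l := by
      rw [hρl, Nat.cast_sub (Nat.one_le_pow _ _ (by omega))]
      push_cast; rfl
    rw [h4, ← pow_mul] at h3
    refine h3.trans (mul_le_mul_of_nonneg_left ?_ (by positivity))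
    exact pow_le_pow_right₀ hρ1 (Nat.mul_div_le N l)

end dens

end Pool.Agent.Helper93.FB
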