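import Pool.Agent.Helper74.CopyReg.NOne
import Pool.Agent.Helper74.CopyReg.Reflect

set_option autoImplicit false

namespace Pool.Agent.Helper93.FB.EveryPairOld

open Pool.Agent.Helper84.CopyLang

universe u

/-- For every pair `(n, m) ≠ (1, 1)` and every finite alphabet `A`: all the languages `L(w)`,
`w` a word over `A`, are regular if and only if `A` has at most one letter. -/
theorem result (n m : ℕ) (hn : 1 ≤ n) (hm : 1 ≤ m) (hnm : (n, m) ≠ (1, 1)) (A : Type u)
    [Fintype A] : (∀ w : List A, (L n m w).IsRegular) ↔ Fintype.card A ≤ 1 := by
  constructor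
  · intro hall
    by_contra hcard
    obtain ⟨x, y, hxy⟩ := Fintype.one_lt_card_iff.mp (Nat.lt_of_not_le hcard)
    by_cases hn1 : n = 1
    · subst hn1
      have hm2 : 2 ≤ m := by
        by_contra h
        exact hnm (by rw [show m = 1 by omega])
      have h := (Pool.Agent.Helper74.CopyReg.NOne.case_one m hm2 A [x, y]).mp (hall _)
      exact hxy (h x (by simp) y (by simp))
    · have he : Function.Injective (fun c : Bool => if c then x else y) := by
        intro c d h
        cases c <;> cases d <;> simp at h ⊢
        · exact hxy h.symm
        · exact hxy h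
      obtain ⟨w, hw⟩ := Pool.Agent.Helper74.CopyReg.not_regular_two he n m (by omega) hm
      exact hw (hall w)
  · intro hcard w
    refine one_letter_regular hn hm w ?_
    intro a _ b _
    exact (Fintype.card_le_one_iff.mp hcard) a b

end Pool.Agent.Helper93.FB.EveryPairOld
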