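import Pool.Agent.Helper93.FB.Win

set_option autoImplicit false

/-!
Occurrences of a word `C` of length 15, and how they behave under steps with long roots.
-/

namespace Pool.Agent.Helper93.FB

open Pool.Agent.Helper84.CopyLang Relation

universe u

section occ
variable {A : Type u}

/-- `C` occurs in `W` at position `i` -/
def At (C W : List A) (i : ℕ) : Prop := ∀ j, j < C.length → W[i + j]? = C[j]?

open Classical in
/-- the number of occurrences -/
noncomputable def occ (C W : List A) : ℕ :=
  ((Finset.range W.length).filter (fun i => At C W i)).card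

lemma At.le {C W : List A} {i : ℕ} (hC : 0 < C.length) (h : At C W i) :
    i + C.length ≤ W.length := by
  have h1 := h (C.length - 1) (by omega)
  rw [List.getElem?_eq_getElem (by omega : C.length - 1 < C.length)] at h1
  have := (List.getElem?_eq_some_iff.mp h1).1
  omega

lemma At.mid (P C Q : List A) : At C (P ++ C ++ Q) P.length := by
  intro j hj
  rw [List.append_assoc, List.getElem?_append_right (by omega),
    List.getElem?_append_left (by omega)]
  congr 1
  omega

/-- an occurrence gives a factorization -/
lemma At.split {C W : List A} {i : ℕ} (hC : 0 < C.length) (h : At C W i) :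
    W = W.take i ++ C ++ W.drop (i + C.length) := by
  have h1 := h.le hC
  have e : (W.drop i).take C.length = C := by
    apply List.ext_getElem?
    intro j
    by_cases hj : j < C.length
    · rw [List.getElem?_take_of_lt hj, List.getElem?_drop, h j hj]
    · rw [List.getElem?_eq_none (by simp; omega), List.getElem?_eq_none (by omega)]
  conv_lhs => rw [← List.take_append_drop i W, ← List.take_append_drop C.length (W.drop i), e]
  rw [List.drop_drop, List.append_assoc]

lemma At.append_right {C W : List A} {i : ℕ} (hC : 0 < C.length) (h : At C W i) (Q : List A) :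
    At C (W ++ Q) i := by
  intro j hj
  have := h.le hC
  rw [List.getElem?_append_left (by omega)]
  exact h j hj

lemma At.of_append_right {C W Q : List A} {i : ℕ} (h : At C (W ++ Q) i)
    (hi : i + C.length ≤ W.length) : At C W i := by
  intro j hj
  have := h j hj
  rwa [List.getElem?_append_left (by omega)] at this

lemma At.append_left {C W : List A} {i : ℕ} (h : At C W i) (P : List A) :
    At C (P ++ W) (P.length + i) := by
  intro j hj
  rw [List.getElem?_append_right (by omega)]
  rw [← h j hj]
  congr 1
  omega

lemma At.of_append_left {C P W : List A} {i : ℕ} (h : At C (P ++ W) (P.length + i)) :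
    At C W i := by
  intro j hj
  have := h j hj
  rw [List.getElem?_append_right (by omega)] at this
  rw [← this]
  congr 1
  omega

open Classical in
lemma occ_eq {C W : List A} (hC : 0 < C.length) {N : ℕ} (hN : W.length ≤ N) :
    occ C W = ((Finset.range N).filter (fun i => At C W i)).card := by
  unfold occ
  congr 1
  ext i
  simp only [Finset.mem_filter, Finset.mem_range]
  constructor
  · rintro ⟨h1, h2⟩; exact ⟨by omega, h2⟩
  · rintro ⟨h1, h2⟩
    have := h2.le hC
    exact ⟨by omega, h2⟩

open Classical in
/-- occurrences before and after a given occurrence -/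
lemma occ_split {C : List A} (hC : 0 < C.length) (P Q : List A) :
    occ C (P ++ C ++ Q) + 1 = occ C (P ++ C) + occ C (C ++ Q) := by
  have e1 : (Finset.range (P ++ C).length).filter (fun i => At C (P ++ C) i)
      = (Finset.range (P.length + 1)).filter (fun i => At C (P ++ C ++ Q) i) := by
    ext i
    simp only [Finset.mem_filter, Finset.mem_range]
    constructor
    · rintro ⟨h1, h2⟩
      have := h2.le hC
      rw [List.length_append] at this
      exact ⟨by omega, h2.append_right hC Q⟩
    · rintro ⟨h1, h2⟩
      refine ⟨by simp; omega, h2.of_append_right (by simp; omega)⟩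
  have e2 : ((Finset.range (C ++ Q).length).filter (fun i => At C (C ++ Q) i)).image
      (fun i => P.length + i)
      = (Finset.range (P ++ C ++ Q).length).filter
        (fun i => P.length ≤ i ∧ At C (P ++ C ++ Q) i) := by
    ext i
    simp only [Finset.mem_image, Finset.mem_filter, Finset.mem_range]
    constructor
    · rintro ⟨k, ⟨h1, h2⟩, rfl⟩
      refine ⟨?_, by omega, ?_⟩
      · simp at h1 ⊢; omega
      · rw [List.append_assoc]; exact h2.append_left P
    · rintro ⟨h1, h2, h3⟩
      refine ⟨i - P.length, ⟨?_, ?_⟩, by omega⟩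
      · simp at h1 ⊢; omega
      · rw [List.append_assoc, show i = P.length + (i - P.length) by omega] at h3
        exact h3.of_append_left
  have e3 : occ C (P ++ C) = ((Finset.range (P.length + 1)).filter
      (fun i => At C (P ++ C ++ Q) i)).card := by
    unfold occ; rw [e1]
  have e4 : occ C (C ++ Q) = ((Finset.range (P ++ C ++ Q).length).filter
        (fun i => P.length ≤ i ∧ At C (P ++ C ++ Q) i)).card := by
    rw [← e2, Finset.card_image_of_injective _ (fun a b h => by simpa using h)]; rfl
  rw [e3, e4, ← Finset.card_union_add_card_inter]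
  unfold occ
  congr 1
  · congr 1
    ext i
    simp only [Finset.mem_filter, Finset.mem_range, Finset.mem_union]
    constructor
    · rintro ⟨h1, h2⟩
      by_cases h3 : i < P.length + 1
      · exact Or.inl ⟨h3, h2⟩
      · exact Or.inr ⟨h1, by omega, h2⟩
    · rintro (⟨h1, h2⟩ | ⟨h1, h2, h3⟩)
      · have := h2.le hC
        exact ⟨by omega, h2⟩
      · exact ⟨h1, h3⟩
  · symm
    rw [Finset.card_eq_one]
    refine ⟨P.length, ?_⟩
    ext i
    simp only [Finset.mem_filter, Finset.mem_range, Finset.mem_inter, Finset.mem_singleton]
    constructor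
    · rintro ⟨⟨h1, _⟩, _, h3, _⟩; omega
    · rintro rfl
      have := At.mid P C Q
      exact ⟨⟨by omega, this⟩, by simp; omega, le_rfl, this⟩

open Classical in
/-- the position of an occurrence is determined by the number of occurrences up to it -/
lemma occ_lt {C : List A} (hC : 0 < C.length) {P1 Q1 P2 Q2 : List A}
    (h : P1 ++ C ++ Q1 = P2 ++ C ++ Q2) (hl : P1.length < P2.length) :
    occ C (P1 ++ C) < occ C (P2 ++ C) := by
  unfold occ
  apply Finset.card_lt_card
  refine ⟨?_, ?_⟩
  · intro i hi
    simp only [Finset.mem_filter, Finset.mem_range] at hi ⊢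
    obtain ⟨h1, h2⟩ := hi
    have h3 := h2.append_right hC Q1
    rw [h] at h3
    have h4 := h2.le hC
    simp only [List.length_append] at h1 h4 ⊢
    exact ⟨by omega, h3.of_append_right (by simp; omega)⟩
  · intro hh
    have h1 : P2.length ∈ (Finset.range (P2 ++ C).length).filter (fun i => At C (P2 ++ C) i) := by
      simp only [Finset.mem_filter, Finset.mem_range]
      refine ⟨by simp; omega, ?_⟩
      have := At.mid P2 C []
      rwa [List.append_nil] at this
    have h2 := hh h1
    simp only [Finset.mem_filter, Finset.mem_range] at h2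
    have := h2.2.le hC
    simp only [List.length_append] at this
    omega

lemma occ_unique {C : List A} (hC : 0 < C.length) {P1 Q1 P2 Q2 : List A}
    (h : P1 ++ C ++ Q1 = P2 ++ C ++ Q2) (ho : occ C (P1 ++ C) = occ C (P2 ++ C)) :
    P1 = P2 ∧ Q1 = Q2 := by
  have hl : P1.length = P2.length := by
    rcases Nat.lt_trichotomy P1.length P2.length with h1 | h1 | h1
    · have := occ_lt hC h h1; omega
    · exact h1
    · have := occ_lt hC h.symm h1; omega
  rw [List.append_assoc, List.append_assoc] at h
  have h1 := List.append_inj_left h hl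
  have h2 := List.append_inj_right h hl
  exact ⟨h1, List.append_cancel_left h2⟩

end occ

section steps
variable {A : Type u}

/-- `C` has no proper period (of length at least 9) -/
def Unb (C : List A) : Prop := ∀ r, 9 ≤ r → r < C.length → ∃ j, j + r < C.length ∧ C[j]? ≠ C[j + r]?

open Classical in
/-- the number of occurrences after a step with a long root -/
lemma occ_step {C : List A} (hC : C.length = 15) {n m : ℕ} (hn : 2 ≤ n)
    (α x β : List A) (hx : 9 ≤ x.length) :
    occ C (α ++ wpow x (n + m) ++ β) = occ C (α ++ wpow x n ++ β) +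
      ((Finset.Ico (α.length + n * x.length - 14) (α.length + n * x.length - 14 + m * x.length)).filter
        (fun i => At C (α ++ wpow x (n + m) ++ β) i)).card := by
  have hnr : 2 * x.length ≤ n * x.length := Nat.mul_le_mul_right _ hn
  have hlen := len_step α x β n m
  have hl1 : (α ++ wpow x n ++ β).length = α.length + n * x.length + β.length := by simp; omega
  set W := α ++ wpow x n ++ β with hW
  set W' := α ++ wpow x (n + m) ++ β with hW'
  obtain ⟨s, hs⟩ : ∃ s, s = α.length + n * x.length - 14 := ⟨_, rfl⟩
  have hL : ∀ i, i < s → (At C W i ↔ At C W' i) := by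
    intro i hi
    have : ∀ j, j < C.length → W'[i + j]? = W[i + j]? := by
      intro j hj
      exact get_left _ _ _ _ _ _ (by omega)
    constructor
    · intro h j hj; rw [this j hj]; exact h j hj
    · intro h j hj; rw [← this j hj]; exact h j hj
  have hR : ∀ i, s ≤ i → (At C W i ↔ At C W' (i + m * x.length)) := by
    intro i hi
    have : ∀ j, j < C.length → W'[i + m * x.length + j]? = W[i + j]? := by
      intro j hj
      rw [show i + m * x.length + j = i + j + m * x.length by ring]
      exact get_right _ _ _ _ _ _ (by omega)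
    constructor
    · intro h j hj; rw [this j hj]; exact h j hj
    · intro h j hj; rw [← this j hj]; exact h j hj
  rw [← hs]
  have e1 : (Finset.range W'.length).filter (fun i => At C W' i) =
      ((Finset.range W.length).filter (fun i => At C W i)).image
        (fun i => if i < s then i else i + m * x.length) ∪
      (Finset.Ico s (s + m * x.length)).filter (fun i => At C W' i) := by
    ext k
    simp only [Finset.mem_filter, Finset.mem_range, Finset.mem_union, Finset.mem_image,
      Finset.mem_Ico]
    constructor
    · rintro ⟨h1, h2⟩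
      by_cases h3 : k < s
      · left
        refine ⟨k, ⟨by omega, (hL k h3).mpr h2⟩, by rw [if_pos h3]⟩
      · by_cases h4 : k < s + m * x.length
        · right; exact ⟨⟨by omega, h4⟩, h2⟩
        · left
          refine ⟨k - m * x.length, ⟨by omega, (hR _ (by omega)).mpr ?_⟩, ?_⟩
          · rwa [Nat.sub_add_cancel (by omega)]
          · rw [if_neg (by omega)]; omega
    · rintro (⟨i, ⟨h1, h2⟩, rfl⟩ | ⟨⟨h1, h2⟩, h3⟩)
      · by_cases h3 : i < s
        · rw [if_pos h3]
          exact ⟨by omega, (hL i h3).mp h2⟩
        · rw [if_neg h3]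
          exact ⟨by omega, (hR i (by omega)).mp h2⟩
      · refine ⟨?_, h3⟩
        have := h3.le (by omega)
        omega
  unfold occ
  rw [e1, Finset.card_union_of_disjoint, Finset.card_image_of_injective]
  · intro i j hij
    simp only at hij
    split_ifs at hij <;> omega
  · rw [Finset.disjoint_left]
    intro k hk hk'
    simp only [Finset.mem_filter, Finset.mem_range, Finset.mem_image, Finset.mem_Ico] at hk hk'
    obtain ⟨i, _, hi⟩ := hk
    split_ifs at hi <;> omega

/-- occurrences of `C` in the power at a position less than the length of the root -/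
lemma at_power {C : List A} (hC : C.length = 15) (hU : Unb C) {x α β : List A} {N n : ℕ}
    (hn : 2 ≤ n) (hx : 9 ≤ x.length) {i : ℕ} (h1 : α.length ≤ i)
    (h2 : i + 15 ≤ α.length + N * x.length) (h : At C (α ++ wpow x N ++ β) i) :
    At C (wpow x n) ((i - α.length) % x.length) := by
  have hnr : 2 * x.length ≤ n * x.length := Nat.mul_le_mul_right _ hn
  have hlt : (i - α.length) % x.length < x.length := Nat.mod_lt _ (by omega)
  have hr : 15 ≤ x.length := by
    by_contra hr
    obtain ⟨j, hj1, hj2⟩ := hU x.length hx (by omega)
    apply hj2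
    rw [← h j (by omega), ← h (j + x.length) hj1,
      get_mid _ _ _ _ _ (by omega) (by omega), get_mid _ _ _ _ _ (by omega) (by omega),
      show i + (j + x.length) - α.length = (i + j - α.length) + x.length by omega,
      Nat.add_mod_right]
  intro j hj
  rw [wpow_get _ _ _ (by omega), ← h j hj, get_mid _ _ _ _ _ (by omega) (by omega),
    Nat.mod_add_mod]
  congr 2
  omega

/-- a step whose power does not contain `C` -/
def FS (C : List A) (n m : ℕ) (s t : List A) : Prop :=
  ∃ α x β : List A, 9 ≤ x.length ∧ (∀ i, ¬ At C (wpow x n) i) ∧ s = α ++ wpow x n ++ β ∧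
    t = α ++ wpow x (n + m) ++ β

lemma FS.step {C : List A} {n m : ℕ} {s t : List A} (h : FS C n m s t) : Step n m s t := by
  obtain ⟨α, x, β, _, _, h1, h2⟩ := h
  exact ⟨α, x, β, h1, h2⟩

lemma rtg_FS {C : List A} {n m : ℕ} {s t : List A} (h : ReflTransGen (FS C n m) s t) :
    ReflTransGen (Step n m) s t := by
  induction h with
  | refl => exact ReflTransGen.refl
  | tail _ h2 ih => exact ih.tail h2.step

lemma FS.occ {C : List A} (hC : C.length = 15) (hU : Unb C) {n m : ℕ} (hn : 2 ≤ n)
    {s t : List A} (h : FS C n m s t) : occ C t = occ C s := by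
  classical
  obtain ⟨α, x, β, hx, hf, rfl, rfl⟩ := h
  have hnr : 2 * x.length ≤ n * x.length := Nat.mul_le_mul_right _ hn
  have hnm : (n + m) * x.length = n * x.length + m * x.length := by ring
  rw [occ_step hC hn α x β hx]
  rw [Finset.card_eq_zero.mpr, add_zero]
  rw [Finset.filter_eq_empty_iff]
  intro i hi hat
  rw [Finset.mem_Ico] at hi
  exact hf _ (at_power hC hU hn hx (by omega) (by omega) hat)

lemma rtg_FS_occ {C : List A} (hC : C.length = 15) (hU : Unb C) {n m : ℕ} (hn : 2 ≤ n)
    {s t : List A} (h : ReflTransGen (FS C n m) s t) : occ C t = occ C s := by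
  induction h with
  | refl => rfl
  | tail _ h2 ih => rw [h2.occ hC hU hn, ih]

lemma occ_add {C : List A} (hC : C.length = 15) {n m : ℕ} (hn : 2 ≤ n)
    (α x β : List A) (hx : 9 ≤ x.length) {o : ℕ} (h : At C (wpow x n) o) :
    occ C (α ++ wpow x n ++ β) + m ≤ occ C (α ++ wpow x (n + m) ++ β) := by
  classical
  have hnr : 2 * x.length ≤ n * x.length := Nat.mul_le_mul_right _ hn
  have hnm : (n + m) * x.length = n * x.length + m * x.length := by ring
  have hol := h.le (by omega)
  rw [length_wpow] at hol
  rw [occ_step hC hn α x β hx]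
  apply Nat.add_le_add_left
  obtain ⟨s, hs⟩ : ∃ s, s = α.length + n * x.length - 14 := ⟨_, rfl⟩
  rw [← hs]
  -- offset of the occurrence in the first period after `s`
  obtain ⟨q, hq1, hq2⟩ : ∃ q, q < x.length ∧ (s + q - α.length) % x.length = o % x.length := by
    have hx0 : 0 < x.length := by omega
    refine ⟨(o + x.length * (s - α.length) - (s - α.length)) % x.length, Nat.mod_lt _ hx0, ?_⟩
    have h1 : s - α.length ≤ x.length * (s - α.length) := Nat.le_mul_of_pos_left _ hx0
    rw [show s + (o + x.length * (s - α.length) - (s - α.length)) % x.length - α.length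
      = (s - α.length) + (o + x.length * (s - α.length) - (s - α.length)) % x.length by omega,
      Nat.add_mod_mod, show s - α.length + (o + x.length * (s - α.length) - (s - α.length))
        = o + x.length * (s - α.length) by omega, Nat.add_mul_mod_self_left]
  have himg : (Finset.range m).image (fun k => s + q + k * x.length) ⊆
      (Finset.Ico s (s + m * x.length)).filter
        (fun i => At C (α ++ wpow x (n + m) ++ β) i) := by
    intro i hi
    rw [Finset.mem_image] at hi
    obtain ⟨k, hk, rfl⟩ := hi
    rw [Finset.mem_range] at hk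
    have h2 : (k + 1) * x.length ≤ m * x.length := Nat.mul_le_mul_right _ (by omega)
    have h3 : (k + 1) * x.length = k * x.length + x.length := by ring
    rw [Finset.mem_filter, Finset.mem_Ico]
    refine ⟨⟨by omega, by omega⟩, ?_⟩
    intro j hj
    rw [← h j hj, wpow_get _ _ _ (by omega), get_mid _ _ _ _ _ (by omega) (by omega)]
    congr 1
    rw [show s + q + k * x.length + j - α.length = ((s + q - α.length) + j) + k * x.length by omega,
      Nat.add_mul_mod_self_right, Nat.add_mod, hq2, ← Nat.add_mod]
  calc m = ((Finset.range m).image (fun k => s + q + k * x.length)).card := by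
        rw [Finset.card_image_of_injective, Finset.card_range]
        intro a b hab
        simp only [Nat.add_left_cancel_iff] at hab
        exact Nat.eq_of_mul_eq_mul_right (by omega) hab
    _ ≤ _ := Finset.card_le_card himg

lemma stepG_occ {C : List A} (hC : C.length = 15) (hU : Unb C) {n m : ℕ} (hn : 2 ≤ n)
    (hm : 1 ≤ m) {s t : List A} (h : StepG 9 n m s t) :
    occ C s ≤ occ C t ∧ (occ C t ≤ occ C s → FS C n m s t) := by
  obtain ⟨α, x, β, hx, rfl, rfl⟩ := h
  by_cases hf : ∀ i, ¬ At C (wpow x n) i
  · have h1 : FS C n m (α ++ wpow x n ++ β) (α ++ wpow x (n + m) ++ β) :=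
      ⟨α, x, β, hx, hf, rfl, rfl⟩
    exact ⟨(h1.occ hC hU hn).ge, fun _ => h1⟩
  · push Not at hf
    obtain ⟨o, ho⟩ := hf
    have := occ_add (m := m) hC hn α x β hx ho
    exact ⟨by omega, fun h => by omega⟩

lemma rtg_stepG_occ {C : List A} (hC : C.length = 15) (hU : Unb C) {n m : ℕ} (hn : 2 ≤ n)
    (hm : 1 ≤ m) {s t : List A} (h : ReflTransGen (StepG 9 n m) s t) :
    occ C s ≤ occ C t ∧ (occ C t ≤ occ C s → ReflTransGen (FS C n m) s t) := by
  induction h with
  | refl => exact ⟨le_rfl, fun _ => ReflTransGen.refl⟩
  | @tail y z _ h2 ih =>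
    have h3 := stepG_occ hC hU hn hm h2
    exact ⟨ih.1.trans h3.1, fun h4 =>
      (ih.2 (h3.1.trans h4)).tail (h3.2 (h4.trans ih.1))⟩

/-- at most `m` new occurrences: at most one step whose power contains `C` -/
lemma one_step {C : List A} (hC : C.length = 15) (hU : Unb C) {n m : ℕ} (hn : 2 ≤ n)
    (hm : 1 ≤ m) {s t : List A} (h : ReflTransGen (StepG 9 n m) s t)
    (ho : occ C t ≤ occ C s + m) :
    ReflTransGen (FS C n m) s t ∨ ∃ α x β : List A, 9 ≤ x.length ∧
      ReflTransGen (FS C n m) s (α ++ wpow x n ++ β) ∧
      ReflTransGen (FS C n m) (α ++ wpow x (n + m) ++ β) t ∧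
      (∃ o, At C (wpow x n) o) ∧
      occ C (α ++ wpow x (n + m) ++ β) = occ C (α ++ wpow x n ++ β) + m := by
  induction h using ReflTransGen.head_induction_on with
  | refl => exact Or.inl ReflTransGen.refl
  | @head a b h1 h2 ih =>
    by_cases hf : FS C n m a b
    · have e := hf.occ hC hU hn
      rcases ih (by omega) with h3 | ⟨α, x, β, h3, h4, h5, h6⟩
      · exact Or.inl (ReflTransGen.head hf h3)
      · exact Or.inr ⟨α, x, β, h3, ReflTransGen.head hf h4, h5, h6⟩
    · right
      obtain ⟨α, x, β, hx, rfl, rfl⟩ := h1
      have hf' : ∃ o, At C (wpow x n) o := by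
        by_contra hh
        push Not at hh
        exact hf ⟨α, x, β, hx, hh, rfl, rfl⟩
      obtain ⟨o, hoo⟩ := hf'
      have h3 := occ_add (m := m) hC hn α x β hx hoo
      have h4 := rtg_stepG_occ hC hU hn hm h2
      refine ⟨α, x, β, hx, ReflTransGen.refl, h4.2 (by omega), ⟨o, hoo⟩, by omega⟩

end steps

end Pool.Agent.Helper93.FB
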