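import Pool.Agent.Helper74.CopyReg.Reflect

set_option autoImplicit false

/-!
Cube windows: the number of windows of length `3 p` and period `p` is monotone under steps whose
root has length at least `p`, and strictly increasing if the root has length `p`.
-/

namespace Pool.Agent.Helper93.FB

open Pool.Agent.Helper84.CopyLang Relation

universe u

section pos
variable {A : Type u}

lemma wpow_get (x : List A) (N k : ℕ) (h : k < N * x.length) :
    (wpow x N)[k]? = x[k % x.length]? := by
  induction N generalizing k with
  | zero => simp at h
  | succ N ih =>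
    rw [wpow_succ]
    have e : (N + 1) * x.length = N * x.length + x.length := by ring
    by_cases hk : k < x.length
    · rw [List.getElem?_append_left hk, Nat.mod_eq_of_lt hk]
    · rw [List.getElem?_append_right (by omega), ih (k - x.length) (by omega)]
      congr 1
      exact (Nat.mod_eq_sub_mod (by omega)).symm

/-- before the end of `α x^n` nothing changes -/
lemma get_left (α x β : List A) (n m k : ℕ) (h : k < α.length + n * x.length) :
    (α ++ wpow x (n + m) ++ β)[k]? = (α ++ wpow x n ++ β)[k]? := by
  have e : α ++ wpow x (n + m) ++ β = (α ++ wpow x n) ++ (wpow x m ++ β) := by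
    rw [wpow_add]; simp
  have hl : k < (α ++ wpow x n).length := by simpa using h
  rw [e, List.getElem?_append_left hl]
  exact (List.getElem?_append_left hl).symm

/-- from the beginning of `x^n` on everything is shifted -/
lemma get_right (α x β : List A) (n m k : ℕ) (h : α.length ≤ k) :
    (α ++ wpow x (n + m) ++ β)[k + m * x.length]? = (α ++ wpow x n ++ β)[k]? := by
  have e : α ++ wpow x (n + m) ++ β = (α ++ wpow x m) ++ (wpow x n ++ β) := by
    rw [add_comm n m, wpow_add]; simp
  have hl : (α ++ wpow x m).length = α.length + m * x.length := by simp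
  rw [e, List.getElem?_append_right (by omega), List.append_assoc α, List.getElem?_append_right h]
  congr 1
  omega

/-- inside the power -/
lemma get_mid (α x β : List A) (N k : ℕ) (h1 : α.length ≤ k)
    (h2 : k < α.length + N * x.length) :
    (α ++ wpow x N ++ β)[k]? = x[(k - α.length) % x.length]? := by
  rw [List.append_assoc, List.getElem?_append_right h1,
    List.getElem?_append_left (by simp; omega), wpow_get _ _ _ (by omega)]

end pos

section per
variable {A : Type u}

/-- a window of length `3 p` and period `p` at position `i` -/
def Per (p : ℕ) (W : List A) (i : ℕ) : Prop :=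
  i + 3 * p ≤ W.length ∧ ∀ j, j < 2 * p → W[i + j]? = W[i + j + p]?

open Classical in
/-- the number of the windows -/
noncomputable def cnt (p : ℕ) (W : List A) : ℕ :=
  ((Finset.range (W.length + 1)).filter (fun i => Per p W i)).card

lemma len_step (α x β : List A) (n m : ℕ) :
    (α ++ wpow x (n + m) ++ β).length = (α ++ wpow x n ++ β).length + m * x.length := by
  simp; ring

lemma per_step {p n m : ℕ} (hp : 1 ≤ p) (hn : 2 ≤ n) (hm : 1 ≤ m) (α x β : List A)
    (hx : p ≤ x.length) {i : ℕ} (h : Per p (α ++ wpow x n ++ β) i) :
    Per p (α ++ wpow x (n + m) ++ β)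
      (if i + 3 * p ≤ α.length + n * x.length then i else i + m * x.length) := by
  obtain ⟨h1, h2⟩ := h
  have hnr : 2 * x.length ≤ n * x.length := Nat.mul_le_mul_right _ hn
  have hmr : 1 * x.length ≤ m * x.length := Nat.mul_le_mul_right _ hm
  have hnm : (n + m) * x.length = n * x.length + m * x.length := by ring
  split_ifs with hc
  · refine ⟨by rw [len_step]; omega, fun j hj => ?_⟩
    rw [get_left _ _ _ _ _ _ (by omega), get_left _ _ _ _ _ _ (by omega)]
    exact h2 j hj
  · refine ⟨by rw [len_step]; omega, fun j hj => ?_⟩
    by_cases hj' : α.length ≤ i + j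
    · have e1 := get_right α x β n m (i + j) hj'
      have e2 := get_right α x β n m (i + j + p) (by omega)
      rw [show i + m * x.length + j = i + j + m * x.length by ring,
        show i + j + m * x.length + p = i + j + p + m * x.length by ring, e1, e2]
      exact h2 j hj
    · -- the window contains the whole power
      have key : ∀ l, x[l % x.length]? = x[(l + p) % x.length]? := by
        intro l
        have hl : l % x.length < x.length := Nat.mod_lt _ (by omega)
        have e3 := h2 (l % x.length + α.length - i) (by omega)
        rw [show i + (l % x.length + α.length - i) = α.length + l % x.length by omega,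
          get_mid _ _ _ _ _ (by omega) (by omega), get_mid _ _ _ _ _ (by omega) (by omega)] at e3
        rw [show α.length + l % x.length - α.length = l % x.length by omega,
          show α.length + l % x.length + p - α.length = l % x.length + p by omega,
          Nat.mod_mod] at e3
        rw [e3, Nat.mod_add_mod]
      rw [get_mid _ _ _ _ _ (by omega) (by omega), get_mid _ _ _ _ _ (by omega) (by omega),
        key (i + m * x.length + j - α.length)]
      congr 2
      omega

open Classical in
lemma cnt_step {p n m : ℕ} (hp : 1 ≤ p) (hn : 2 ≤ n) (hm : 1 ≤ m) (α x β : List A)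
    (hx : p ≤ x.length) : cnt p (α ++ wpow x n ++ β) ≤ cnt p (α ++ wpow x (n + m) ++ β) ∧
      (x.length = p → cnt p (α ++ wpow x n ++ β) < cnt p (α ++ wpow x (n + m) ++ β)) := by
  have hnr : 2 * x.length ≤ n * x.length := Nat.mul_le_mul_right _ hn
  have hmr : 1 * x.length ≤ m * x.length := Nat.mul_le_mul_right _ hm
  have hnm : (n + m) * x.length = n * x.length + m * x.length := by ring
  have hlen := len_step α x β n m
  set W := α ++ wpow x n ++ β with hW
  set W' := α ++ wpow x (n + m) ++ β with hW'
  let φ : ℕ → ℕ := fun i => if i + 3 * p ≤ α.length + n * x.length then i else i + m * x.length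
  have hφ : ∀ i, φ i = if i + 3 * p ≤ α.length + n * x.length then i else i + m * x.length :=
    fun i => rfl
  have hinj : Function.Injective φ := by
    intro i j hij
    rw [hφ, hφ] at hij
    split_ifs at hij <;> omega
  have hsub : ((Finset.range (W.length + 1)).filter (fun i => Per p W i)).image φ ⊆
      (Finset.range (W'.length + 1)).filter (fun i => Per p W' i) := by
    intro k hk
    rw [Finset.mem_image] at hk
    obtain ⟨i, hi, rfl⟩ := hk
    rw [Finset.mem_filter] at hi
    have h3 := per_step hp hn hm α x β hx hi.2
    rw [Finset.mem_filter, Finset.mem_range]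
    refine ⟨?_, h3⟩
    have := h3.1
    rw [← hφ, ← hW'] at this
    omega
  have hcard : (((Finset.range (W.length + 1)).filter (fun i => Per p W i)).image φ).card
      = cnt p W := by
    rw [Finset.card_image_of_injective _ hinj]; rfl
  refine ⟨?_, fun hxp => ?_⟩
  · rw [← hcard]
    exact Finset.card_le_card hsub
  · rw [← hcard]
    apply Finset.card_lt_card
    refine ⟨hsub, fun hh => ?_⟩
    obtain ⟨k, hk1, hk2, hk3⟩ : ∃ k, α.length ≤ k ∧ α.length + n * x.length < k + 3 * p ∧
        k + 3 * p ≤ α.length + (n + m) * x.length := by
      by_cases h0 : n = 2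
      · subst h0
        refine ⟨α.length, le_rfl, by omega, by omega⟩
      · have : 3 * x.length ≤ n * x.length := Nat.mul_le_mul_right _ (by omega)
        exact ⟨α.length + n * x.length + 1 - 3 * p, by omega, by omega, by omega⟩
    have hper : Per p W' k := by
      refine ⟨?_, fun j hj => ?_⟩
      · rw [hW']; simp; omega
      · rw [hW', get_mid _ _ _ _ _ (by omega) (by omega), get_mid _ _ _ _ _ (by omega) (by omega)]
        rw [show k + j + p - α.length = (k + j - α.length) + x.length by omega,
          Nat.add_mod_right]
    have hmem : k ∈ (Finset.range (W'.length + 1)).filter (fun i => Per p W' i) := by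
      rw [Finset.mem_filter, Finset.mem_range]
      refine ⟨?_, hper⟩
      have := hper.1
      omega
    have := hh hmem
    rw [Finset.mem_image] at this
    obtain ⟨i, _, hi⟩ := this
    rw [hφ] at hi
    split_ifs at hi with h5
    · omega
    · omega

/-- a step whose root has length at least `p` -/
def StepG (p n m : ℕ) (s t : List A) : Prop :=
  ∃ α x β : List A, p ≤ x.length ∧ s = α ++ wpow x n ++ β ∧ t = α ++ wpow x (n + m) ++ β

lemma StepG.step {p n m : ℕ} {s t : List A} (h : StepG p n m s t) : Step n m s t := by
  obtain ⟨α, x, β, _, h1, h2⟩ := h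
  exact ⟨α, x, β, h1, h2⟩

lemma stepG_one {n m : ℕ} {s t : List A} (h : ReflTransGen (Step n m) s t) :
    ReflTransGen (StepG 1 n m) s t := by
  induction h with
  | refl => exact ReflTransGen.refl
  | @tail y z _ h2 ih =>
    obtain ⟨α, x, β, h3, h4⟩ := h2
    rcases Nat.eq_zero_or_pos x.length with h0 | h0
    · have hx : x = [] := List.length_eq_zero_iff.mp h0
      subst hx
      rw [wpow_nil] at h3 h4
      rw [h4, ← h3]; exact ih
    · exact ih.tail ⟨α, x, β, h0, h3, h4⟩

lemma stepG_up {p n m : ℕ} (hp : 1 ≤ p) (hn : 2 ≤ n) (hm : 1 ≤ m) {s t : List A}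
    (h : ReflTransGen (StepG p n m) s t) :
    cnt p s ≤ cnt p t ∧ (cnt p t ≤ cnt p s → ReflTransGen (StepG (p + 1) n m) s t) := by
  induction h with
  | refl => exact ⟨le_rfl, fun _ => ReflTransGen.refl⟩
  | @tail y z _ h2 ih =>
    obtain ⟨α, x, β, hx, h3, h4⟩ := h2
    have h5 := cnt_step hp hn hm α x β hx
    rw [← h3, ← h4] at h5
    refine ⟨ih.1.trans h5.1, fun h6 => ?_⟩
    refine (ih.2 (h5.1.trans h6)).tail ⟨α, x, β, ?_, h3, h4⟩
    by_contra h7
    have h8 := h5.2 (by omega)
    have := ih.1
    omega

lemma stepG_nine {n m : ℕ} (hn : 2 ≤ n) (hm : 1 ≤ m) {s t : List A}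
    (h : ReflTransGen (Step n m) s t) (hc : ∀ p, 1 ≤ p → p ≤ 8 → cnt p t ≤ cnt p s) :
    ReflTransGen (StepG 9 n m) s t := by
  have key : ∀ p, p ≤ 8 → ReflTransGen (StepG (p + 1) n m) s t := by
    intro p
    induction p with
    | zero => intro _; exact stepG_one h
    | succ p ih =>
      intro hp
      exact (stepG_up (by omega) hn hm (ih (by omega))).2 (hc _ (by omega) hp)
  exact key 8 le_rfl

end per

end Pool.Agent.Helper93.FB
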